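import Pool.Agent.W_MP_315f31_lc.Core
import Pool.Agent.W_MP_0bf392_lc.RO

/-!
# MP_315f31_lc : the properties of the iteration in terms of its regular open algebra

`P` is a preorder `L` (`L q p`: `q` is stronger). `RO (PL L)` is the algebra of the regular open
subsets of `P`; `p ∈ u.1` says that `p` forces `u`.
-/

universe u

open Cardinal Set IM

namespace Pool.Agent.W_MP_315f31_lc

/-- `L` is a preorder. -/
class IsPre {P : Type u} (L : P → P → Prop) : Prop where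
  refl : ∀ p, L p p
  trans : ∀ p q r, L p q → L q r → L p r

/-- The type `P` with the preorder `L`. -/
def PL {P : Type u} (_ : P → P → Prop) : Type u := P

instance {P : Type u} (L : P → P → Prop) [IsPre L] : Preorder (PL L) where
  le := L
  le_refl := IsPre.refl (L := L)
  le_trans := IsPre.trans (L := L)

/-- The algebra of the regular open sets. -/
abbrev DD {P : Type u} (L : P → P → Prop) [IsPre L] : Type u := RO (PL L)

/-- The properties of the iteration, in terms of a complete Boolean algebra. -/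
structure CoreD (K : Type u) [LinearOrder K] (D : Type u) [CompleteBooleanAlgebra D] : Prop where
  /-- countable sets of the extension are covered by countable sets -/
  cover : ∀ (A : Type u) (f : ℕ → A → D), (∀ n, (⨆ a, f n a) = ⊤) → ∀ a : D, a ≠ ⊥ →
    ∃ (b : D) (S : Set A), b ≠ ⊥ ∧ b ≤ a ∧ S.Countable ∧ ∀ n, b ≤ ⨆ x ∈ S, f n x
  /-- the chain condition -/
  cc : ∀ (J : Type u) (f : J → D), (∀ i, f i ≠ ⊥) → (∀ i j, i ≠ j → f i ⊓ f j = ⊥) → #J < #K
  /-- every element of `K` is collapsed to `ℵ₁` -/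
  coll : ∀ δ : K, ∃ g : W1.{u} → K → D, (∀ w a b, a ≠ b → g w a ⊓ g w b = ⊥) ∧
    ∀ a < δ, (⨆ w, g w a) = ⊤
  /-- there are `K` many different reals -/
  reals : ∃ x : K → ℕ → D, ∀ δ δ', δ ≠ δ' →
    (⨆ n, (x δ n ⊓ (x δ' n)ᶜ) ⊔ ((x δ n)ᶜ ⊓ x δ' n)) = ⊤
  /-- there is a tree -/
  tree : ∃ (nd : K → K → K → D) (vl : K → K → D),
    (∀ α β, β ≤ α → ∀ z, vl α z ≤
      ⨆ z', vl β z' ⊓ ⨅ ξ : Iio β, (nd α z ξ ⊓ nd β z' ξ) ⊔ ((nd α z ξ)ᶜ ⊓ (nd β z' ξ)ᶜ)) ∧
    (∀ α, ∃ Z : Set K, #Z < #K ∧ ∀ z, ∃ z' ∈ Z, vl α z = vl α z' ∧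
      ∀ ξ < α, nd α z ξ = nd α z' ξ) ∧
    (∀ α, (⨆ z, vl α z) = ⊤) ∧
    ∀ b : K → D, (⨅ α, ⨆ z, vl α z ⊓
      ⨅ ξ : Iio α, (b ξ ⊓ nd α z ξ) ⊔ ((b ξ)ᶜ ⊓ (nd α z ξ)ᶜ)) = ⊥

section

variable {P : Type u} {L : P → P → Prop} [IsPre L]

/-- The regular open set of a name. -/
def toD (τ : P → Prop) (hm : ∀ p q, τ p → L q p → τ q)
    (hr : ∀ p, (∀ q, L q p → ∃ r, L r q ∧ τ r) → τ p) : DD L :=
  ⟨{p : PL L | τ p}, fun p => ⟨fun hp q hq => ⟨q, le_refl q, hm p q hp hq⟩, fun h => hr p fun q hq => h q hq⟩⟩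

/-- The regular open set generated by a downward closed set. -/
def toD' (τ : P → Prop) (hm : ∀ p q, τ p → L q p → τ q) : DD L :=
  ⟨{p : PL L | ∀ q, L q p → ∃ r, L r q ∧ τ r}, RO.isRO_dens {p : PL L | τ p} fun p hp q hq => hm p q hp hq⟩

/-- The regular open set of a condition. -/
def io (p : P) : DD L := toD' (fun q => L q p) fun _ _ h1 h2 => IsPre.trans _ _ _ h2 h1

theorem mem_io {p q : P} : (show PL L from q) ∈ (io p : DD L).1 ↔
    ∀ r, L r q → ∃ t, L t r ∧ L t p := Iff.rfl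

theorem mem_io_self (p : P) : (show PL L from p) ∈ (io p : DD L).1 :=
  fun r hr => ⟨r, IsPre.refl r, hr⟩

theorem le_io_iff {p : P} {u : DD L} : io p ≤ u ↔ (show PL L from p) ∈ u.1 := by
  constructor
  · intro h
    exact h (mem_io_self p)
  · intro h q hq
    refine RO.mem_of_dense fun r hr => ?_
    obtain ⟨t, ht, ht'⟩ := hq r hr
    exact ⟨t, ht, RO.mem_lower h ht'⟩

theorem io_ne_bot (p : P) : (io p : DD L) ≠ ⊥ := by
  intro h
  have h1 : (show PL L from p) ∈ (io p : DD L).1 := mem_io_self p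
  rw [h] at h1
  exact RO.mem_bot _ h1

theorem io_mono {p q : P} (h : L q p) : (io q : DD L) ≤ io p := by
  rw [le_io_iff]
  exact RO.mem_lower (mem_io_self p) h

theorem exists_mem {u : DD L} (h : u ≠ ⊥) : ∃ p : PL L, p ∈ u.1 := by
  by_contra hc
  push Not at hc
  apply h
  apply le_bot_iff.1
  intro p hp
  exact absurd hp (hc p)

/-- The conditions are dense in the algebra. -/
theorem exists_io_le {u : DD L} (h : u ≠ ⊥) : ∃ p : P, io p ≤ u := by
  obtain ⟨p, hp⟩ := exists_mem h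
  exact ⟨p, le_io_iff.2 hp⟩

theorem exists_io_le_of {u : DD L} {p : P} (h : io p ⊓ u ≠ ⊥) : ∃ q : P, L q p ∧ io q ≤ u := by
  obtain ⟨r, hr, hr'⟩ := exists_mem h
  obtain ⟨t, ht, ht'⟩ := hr r (IsPre.refl (L := L) r)
  exact ⟨t, ht', le_io_iff.2 (RO.mem_lower hr' ht)⟩

theorem mem_toD' {τ : P → Prop} (hm : ∀ p q, τ p → L q p → τ q) {p : P} (hp : τ p) :
    (show PL L from p) ∈ (toD' τ hm : DD L).1 :=
  fun q hq => ⟨q, IsPre.refl q, hm p q hp hq⟩

/-- The value of an equivalence. -/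
theorem mem_equiv (u v : DD L) (p : PL L) :
    p ∈ ((u ⊓ v) ⊔ (uᶜ ⊓ vᶜ)).1 ↔ ∀ q ≤ p, (q ∈ u.1 ↔ q ∈ v.1) := by
  constructor
  · intro h
    have key : ∀ q ≤ p, ∃ r ≤ q, (r ∈ u.1 ∧ r ∈ v.1) ∨ (r ∈ (uᶜ).1 ∧ r ∈ (vᶜ).1) := by
      intro q hq
      obtain ⟨r, hr, h1 | h1⟩ := h q hq
      · exact ⟨r, hr, Or.inl h1⟩
      · exact ⟨r, hr, Or.inr h1⟩
    intro q hq
    constructor
    · intro hu
      refine RO.mem_of_dense fun r hr => ?_
      obtain ⟨t, ht, h1 | h1⟩ := key r (hr.trans hq)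
      · exact ⟨t, ht, h1.2⟩
      · exact absurd (RO.mem_lower hu (ht.trans hr)) ((RO.mem_compl u t).1 h1.1 t (le_refl t))
    · intro hv
      refine RO.mem_of_dense fun r hr => ?_
      obtain ⟨t, ht, h1 | h1⟩ := key r (hr.trans hq)
      · exact ⟨t, ht, h1.1⟩
      · exact absurd (RO.mem_lower hv (ht.trans hr)) ((RO.mem_compl v t).1 h1.2 t (le_refl t))
  · intro h q hq
    by_cases hc : ∃ r ≤ q, r ∈ u.1
    · obtain ⟨r, hr, hr'⟩ := hc
      exact ⟨r, hr, Or.inl ⟨hr', (h r (hr.trans hq)).1 hr'⟩⟩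
    · refine ⟨q, le_refl q, Or.inr ⟨?_, ?_⟩⟩
      · intro r hr hr'
        exact hc ⟨r, hr, hr'⟩
      · intro r hr hr'
        exact hc ⟨r, hr, (h r (hr.trans hq)).2 hr'⟩

theorem eq_top_of_dense {u : DD L} (h : ∀ p : PL L, ∃ r ≤ p, r ∈ u.1) : u = ⊤ :=
  top_le_iff.1 fun _ _ => RO.mem_of_dense fun q _ => h q

end

/-- The properties of the iteration, in terms of its algebra. -/
theorem Core.coreD {K : Type u} [LinearOrder K] {P : Type u} {L : P → P → Prop} [IsPre L]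
    (h : Core K P L) : CoreD K (DD L) := by
  refine ⟨?_, ?_, ?_, ?_, ?_⟩
  · -- cover
    intro A f hf a ha
    obtain ⟨p, hp⟩ := exists_io_le ha
    obtain ⟨q, S, hqp, hS, hq⟩ := h.cover A (fun n x p => (show PL L from p) ∈ (f n x).1)
      (fun n a p q hp hq => RO.mem_lower (P := PL L) hp hq)
      (by
        intro n p
        have h1 : (show PL L from p) ∈ (⨆ a, f n a).1 := by
          rw [hf n]; exact RO.mem_top _
        obtain ⟨r, hr, i, hi⟩ := (RO.mem_iSup (f n) _).1 h1 p (IsPre.refl (L := L) p)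
        exact ⟨r, i, hr, hi⟩) p
    refine ⟨io q, S, io_ne_bot q, (io_mono hqp).trans hp, hS, ?_⟩
    intro n
    rw [le_io_iff]
    refine RO.mem_of_dense fun r hr => ?_
    obtain ⟨r', a, hr', ha, hra⟩ := hq n r hr
    exact ⟨r', hr', (le_iSup₂_of_le (f := fun x (_ : x ∈ S) => f n x) a ha le_rfl) hra⟩
  · -- cc
    intro J f hf hd
    choose p hp using fun i => exists_io_le (hf i)
    have hinc : ∀ i j, i ≠ j → ¬ ∃ r, L r (p i) ∧ L r (p j) := by
      rintro i j hij ⟨r, hri, hrj⟩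
      have h1 : (show PL L from r) ∈ (f i).1 := RO.mem_lower (le_io_iff.1 (hp i)) hri
      have h2 : (show PL L from r) ∈ (f j).1 := RO.mem_lower (le_io_iff.1 (hp j)) hrj
      have h3 : (show PL L from r) ∈ (f i ⊓ f j).1 := ⟨h1, h2⟩
      rw [hd i j hij] at h3
      exact RO.mem_bot _ h3
    have hinj : Function.Injective p := by
      intro i j hij
      by_contra hne
      exact hinc i j hne ⟨p i, IsPre.refl _, hij ▸ IsPre.refl _⟩
    rw [← Cardinal.mk_range_eq p hinj]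
    apply h.cc
    rintro _ ⟨i, rfl⟩ _ ⟨j, rfl⟩ hne
    exact hinc i j fun hij => hne (hij ▸ rfl)
  · -- coll
    intro δ
    obtain ⟨g, hg, hd⟩ := h.coll δ
    refine ⟨fun w a => toD' (g w a) (fun p q => hg.mono w a p q), ?_, ?_⟩
    · intro w a b hab
      by_contra hne
      obtain ⟨p, hp1, hp2⟩ := exists_mem hne
      obtain ⟨r, hr, hr'⟩ := hp1 p (IsPre.refl (L := L) p)
      obtain ⟨t, ht, ht'⟩ := hp2 r hr
      exact hab (hg.uniq w a b t (hg.mono w a r t hr' ht) ht')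
    · intro a ha
      refine eq_top_of_dense fun p => ?_
      obtain ⟨q, w, hq, hw⟩ := hd a ha p
      refine ⟨q, hq, ?_⟩
      exact (le_iSup (fun w => (toD' (g w a) (fun p q => hg.mono w a p q) : DD L)) w)
        (mem_toD' (fun p q => hg.mono w a p q) hw)
  · -- reals
    obtain ⟨x, hx1, hx2, hx3, hx4⟩ := h.reals
    refine ⟨fun δ n => toD' (x δ n true) (fun p q => hx1 δ n true p q), ?_⟩
    have hneg : ∀ δ n q, x δ n false q →
        (show PL L from q) ∈ ((toD' (x δ n true) (fun p q => hx1 δ n true p q) : DD L)ᶜ).1 := by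
      intro δ n q hq r hr hr'
      obtain ⟨t, ht, ht'⟩ := hr' r (IsPre.refl (L := L) r)
      exact hx2 δ n t ⟨ht', hx1 δ n false q t hq (IsPre.trans _ _ _ ht hr)⟩
    intro δ δ' hδ
    refine eq_top_of_dense fun p => ?_
    obtain ⟨q, n, b, hq, h1, h2⟩ := hx4 δ δ' hδ p
    refine ⟨q, hq, ?_⟩
    refine (le_iSup (fun n => ((toD' (x δ n true) (fun p q => hx1 δ n true p q) : DD L) ⊓
      (toD' (x δ' n true) (fun p q => hx1 δ' n true p q) : DD L)ᶜ) ⊔
      ((toD' (x δ n true) (fun p q => hx1 δ n true p q) : DD L)ᶜ ⊓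
      (toD' (x δ' n true) (fun p q => hx1 δ' n true p q) : DD L))) n) ?_
    cases b with
    | true =>
      refine (le_sup_left : _ ≤ (_ : DD L)) ⟨?_, ?_⟩
      · exact mem_toD' (fun p q => hx1 δ n true p q) h1
      · exact hneg δ' n q h2
    | false =>
      refine (le_sup_right : _ ≤ (_ : DD L)) ⟨?_, ?_⟩
      · exact hneg δ n q h1
      · exact mem_toD' (fun p q => hx1 δ' n true p q) h2
  · -- tree
    obtain ⟨nd, vl, ht⟩ := h.tree
    refine ⟨fun α z ξ => toD (nd α z ξ) (fun p q => (ht.nd_nm α z).mono ξ p q)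
      (fun p => (ht.nd_nm α z).reg ξ p),
      fun α z => toD (vl α z) (fun p q => ht.vl_mono α z p q) (fun p => ht.vl_reg α z p),
      ?_, ?_, ?_, ?_⟩
    · intro α β hβ z p hp
      refine (RO.mem_iSup _ _).2 fun q hq => ?_
      obtain ⟨r, z', hr, hr1, hr2⟩ := ht.restr α z β q hβ (ht.vl_mono α z p q hp hq)
      refine ⟨r, hr, z', hr1, (RO.mem_iInf _ _).2 fun ξ => ?_⟩
      refine (mem_equiv _ _ _).2 fun t htr => ?_
      exact hr2 ξ.1 ξ.2 t htr
    · intro α
      obtain ⟨Z, hZ, hZ'⟩ := ht.small α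
      refine ⟨Z, hZ, fun z => ?_⟩
      obtain ⟨z', hz', he⟩ := hZ' z
      refine ⟨z', hz', ?_, ?_⟩
      · apply le_antisymm
        · intro p hp
          exact ht.vl_congr α z z' p (fun ξ hξ q _ => he ξ hξ q) hp
        · intro p hp
          exact ht.vl_congr α z' z p (fun ξ hξ q _ => (he ξ hξ q).symm) hp
      · intro ξ hξ
        apply le_antisymm
        · intro p hp
          exact (he ξ hξ p).1 hp
        · intro p hp
          exact (he ξ hξ p).2 hp
    · intro α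
      refine eq_top_of_dense fun p => ?_
      obtain ⟨q, z, hq, hz⟩ := ht.ne α p
      refine ⟨q, hq, ?_⟩
      exact (le_iSup (fun z => (toD (vl α z) (fun p q => ht.vl_mono α z p q)
        (fun p => ht.vl_reg α z p) : DD L)) z) hz
    · intro b
      by_contra hne
      obtain ⟨p, hp⟩ := exists_mem hne
      refine ht.nobr (fun ξ q => (show PL L from q) ∈ (b ξ).1)
        ⟨fun a p q hp hq => RO.mem_lower (P := PL L) hp hq,
         fun a p hp => RO.mem_of_dense (P := PL L) hp⟩ p ?_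
      intro α q hq
      have h1 := (RO.mem_iInf _ _).1 hp α
      obtain ⟨r, hr, z, hz1, hz2⟩ := (RO.mem_iSup _ _).1 h1 q hq
      refine ⟨r, z, hr, hz1, fun ξ hξ r' hr' => ?_⟩
      have h2 := (mem_equiv _ _ _).1 ((RO.mem_iInf _ _).1 hz2 ⟨ξ, hξ⟩)
      exact h2 r' hr'

end Pool.Agent.W_MP_315f31_lc
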