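import Pool.Agent.BVM_h40.Ord
import Pool.Agent.W_315f31_h40.CoreD

/-!
# MP_315f31_lc : the cardinals of the model

In the quotients of the Boolean-valued sets over an algebra with the properties `CoreD K D` the
name `chkT Wo` is `ω₁`, the name `chkT K` is `ω₂`, and the continuum hypothesis fails.
-/

universe u

open Cardinal Set HESR IM.BSet
open IM (BSet)

namespace BVM

variable {D : Type u} [CompleteBooleanAlgebra D] {lam : D → Prop} {hl : IsUF lam}

theorem cov_fo {k : ℕ} (a b : Fin k) : FO.{u} (fun _ E v => Cov E (v a) (v b)) := by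
  unfold Cov
  refine FO.ex (R := fun T E f (v : Fin k → T) => IsFun E f (v a) ∧
    ∀ y, E y (v b) → ∃ x, App E f x y) ?_
  refine (IsFun.fo _ _).and ?_
  refine FO.all (R := fun T E y (v : Fin (k + 1) → T) => E y (v b.succ) → ∃ x, App E (v 0) x y) ?_
  refine (FO.mem _ _).imp ?_
  exact FO.ex (R := fun T E x (v : Fin (k + 2) → T) => App E (v 1) x (v 0)) (App.fo _ _ _)

theorem TD.cov1 {k : ℕ} {f g : ∀ (lam : D → Prop) (hl : IsUF lam), (Fin k → X hl) → X hl}
    (hf : Tm f) (hg : Tm g) : TD fun lam hl v => Cov (E hl) (f lam hl v) (g lam hl v) :=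
  TD.fo2 (R := fun _ E a b => Cov E a b) (cov_fo 0 1) hf hg

/-- Fullness: a name which is a witness whenever there is one. -/
theorem TD.exists_name {P : ∀ (lam : D → Prop) (hl : IsUF lam), X hl → Prop} (h : TD1 P) :
    ∃ x : BSet D, ∀ (lam : D → Prop) (hl : IsUF lam) (z : X hl), P lam hl z →
      P lam hl (val hl x) := by
  obtain ⟨x, hx⟩ := IM.BSet.full1 (TD.b1 h) (TD.b1_ext h)
  refine ⟨x, fun lam hl z hz => ?_⟩
  obtain ⟨z, rfl⟩ := BVM.exists_name z
  rw [TD.b1_iff h] at hz ⊢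
  rw [← hx]
  exact hl.mono (le_iSup (TD.b1 h) z) hz

end BVM

namespace Pool.Agent.W_MP_315f31_lc

open BVM

/-- The well-order of type `ω₁`. -/
abbrev Wo : Type u := (ℵ₁ : Cardinal.{u}).ord.ToType

theorem mk_Wo : #Wo.{u} = ℵ₁ := by
  rw [mk_toType, card_ord]

theorem Wo_countable (w : Wo.{u}) : (Iio w).Countable := by
  rw [← Cardinal.le_aleph0_iff_set_countable, ← Cardinal.lt_aleph_one_iff]
  have h := Cardinal.mk_Iio_lt w (by rw [mk_toType, card_ord]; exact (Ordinal.type_toType _).symm)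
  rwa [mk_Wo] at h

theorem Wo_uncountable (S : Set Wo.{u}) (hS : S.Countable) : ∃ w, w ∉ S := by
  by_contra hc
  push Not at hc
  have h1 : S = Set.univ := eq_univ_of_forall hc
  rw [h1, ← Cardinal.le_aleph0_iff_set_countable, mk_univ, mk_Wo] at hS
  exact absurd hS (not_le.2 aleph0_lt_aleph_one)

variable {K : Type u} [LinearOrder K] [WellFoundedLT K] {D : Type u} [CompleteBooleanAlgebra D]

/-- The elements of `ω₁` are countable. -/
theorem cov_Wo {lam : D → Prop} (hl : IsUF lam) :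
    ∀ x, E hl x (val hl (chkT Wo)) → Cov (E hl) (val hl omB) x := by
  refine forall_chkT (P := fun lam hl x => Cov (E hl) (val hl omB) x)
    (TD.cov1 (Tm.const _) (Tm.var 0)) (a := ⊤) ?_ hl.top
  intro w lam hl _
  rw [chk_eq w]
  have : Countable (Iio w) := (Wo_countable w).to_subtype
  exact cov_ctbl _ hl

omit [WellFoundedLT K] in
/-- `ω₁` is not countable. -/
theorem not_cov_Wo (h : CoreD K D) {lam : D → Prop} (hl : IsUF lam) :
    ¬ Cov (E hl) (val hl omB) (val hl (chkT Wo : BSet D)) := by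
  intro hc
  -- the relation: a function which covers
  have hT : TD1 (D := D) fun lam hl f => IsFun (E hl) f (val hl omB) ∧
      ∀ y, E hl y (val hl (chkT Wo)) → ∃ x, E hl x (val hl omB) ∧ App (E hl) f x y := by
    refine TD.and (TD.isFun (Tm.var 0) (Tm.const _)) ?_
    refine TD.all (P := fun lam hl y v => E hl y (val hl (chkT Wo)) →
      ∃ x, E hl x (val hl omB) ∧ App (E hl) (v 0) x y) ?_
    refine TD.imp (TD.mem (Tm.var 0) (Tm.const _)) ?_
    exact TD.ex (P := fun lam hl x v => E hl x (val hl omB) ∧ App (E hl) (v 1) x (v 0))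
      (TD.and (TD.mem (Tm.var 0) (Tm.const _)) (TD.app (Tm.var 2) (Tm.var 0) (Tm.var 1)))
  obtain ⟨F, hF⟩ := TD.exists_name hT
  set c : D := TD.b1 hT F with hcdef
  have hlc : lam c := by
    obtain ⟨f, hf, hf'⟩ := hc
    refine (TD.b1_iff hT).1 (hF lam hl f ⟨hf, fun y hy => ?_⟩)
    obtain ⟨x, hx⟩ := hf' y hy
    exact ⟨x, hf.dom (zfc hl) hx, hx⟩
  have hc0 : c ≠ ⊥ := fun h0 => hl.bot (h0 ▸ hlc)
  have hA : ∀ x : BSet D, TD1 (D := D) fun lam hl z => App (E hl) (val hl F) z (val hl x) :=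
    fun x => TD.app (Tm.const _) (Tm.var 0) (Tm.const _)
  let g : ℕ → Wo.{u} → D := fun n w => TD.b1 (hA (chk w)) (natB n)
  obtain ⟨b, S, hb0, hbc, hS, hbS⟩ := h.cover (Option Wo.{u})
    (fun n o => o.elim (⨆ w, g n w)ᶜ (fun w => g n w)) (by
      intro n
      rw [iSup_option]
      exact compl_sup_eq_top) c hc0
  have hS' : {w : Wo.{u} | some w ∈ S}.Countable := hS.preimage (Option.some_injective _)
  obtain ⟨w, hw⟩ := Wo_uncountable _ hS'
  -- `b` forces that `w` is a value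
  have h1 : b ≤ ⨆ n, g n w := by
    rw [le_iff_ultra]
    intro lam hl hlam
    have h2 := (TD.b1_iff hT (hl := hl)).2 (hl.mono hbc hlam)
    exact (exists_omB_iff (hA (chk w))).1 (h2.2 _ (E_chkT w))
  apply hb0
  rw [← le_bot_iff]
  have h2 : ∀ n, b ⊓ g n w ≤ ⊥ := by
    intro n
    have h3 : b ⊓ g n w ≤ (⨆ x ∈ S, (x : Option Wo.{u}).elim (⨆ w, g n w)ᶜ (fun w => g n w)) ⊓
        (b ⊓ g n w) := le_inf (inf_le_left.trans (hbS n)) le_rfl
    refine h3.trans ?_
    rw [iSup₂_inf_eq]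
    refine iSup₂_le fun x hx => ?_
    rcases x with _ | w'
    · change (⨆ w, g n w)ᶜ ⊓ (b ⊓ g n w) ≤ ⊥
      refine (inf_le_inf_left _ (inf_le_right.trans (le_iSup (g n) w))).trans ?_
      rw [compl_inf_eq_bot]
    · change g n w' ⊓ (b ⊓ g n w) ≤ ⊥
      have hne : w' ≠ w := by
        rintro rfl
        exact hw hx
      rw [le_iff_ultra]
      intro lam hl hlam
      obtain ⟨h4, h5⟩ := hl.inf_iff.1 hlam
      obtain ⟨h6, h7⟩ := hl.inf_iff.1 h5
      have h8 := (TD.b1_iff hT (hl := hl)).2 (hl.mono hbc h6)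
      have h9 := h8.1.val (zfc hl) ((TD.b1_iff (hA (chk w')) (hl := hl)).2 h4)
        ((TD.b1_iff (hA (chk w)) (hl := hl)).2 h7)
      exact (hne (val_chk_inj.1 h9)).elim
  calc b = b ⊓ ⨆ n, g n w := (inf_eq_left.2 h1).symm
    _ = ⨆ n, b ⊓ g n w := inf_iSup_eq _ _
    _ ≤ ⊥ := iSup_le h2

omit [WellFoundedLT K] in
/-- A family of `K` many pairwise different elements of a set `C` is not covered by `ω₁`. -/
theorem not_cov_family (h : CoreD K D) (hK : Inacc K) {f : K → BSet D}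
    (hf : ∀ β β', β ≠ β' → beq (f β) (f β') = ⊥) {C : BSet D} {a : D}
    (hC : ∀ β, a ≤ bmem (f β) C) {lam : D → Prop} (hl : IsUF lam) (hlam : lam a) :
    ¬ Cov (E hl) (val hl (chkT Wo : BSet D)) (val hl C) := by
  intro hc
  have hT : TD1 (D := D) fun lam hl f => IsFun (E hl) f (val hl (chkT Wo)) ∧
      ∀ y, E hl y (val hl C) → ∃ x, E hl x (val hl (chkT Wo)) ∧ App (E hl) f x y := by
    refine TD.and (TD.isFun (Tm.var 0) (Tm.const _)) ?_
    refine TD.all (P := fun lam hl y v => E hl y (val hl C) →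
      ∃ x, E hl x (val hl (chkT Wo)) ∧ App (E hl) (v 0) x y) ?_
    refine TD.imp (TD.mem (Tm.var 0) (Tm.const _)) ?_
    exact TD.ex (P := fun lam hl x v => E hl x (val hl (chkT Wo)) ∧ App (E hl) (v 1) x (v 0))
      (TD.and (TD.mem (Tm.var 0) (Tm.const _)) (TD.app (Tm.var 2) (Tm.var 0) (Tm.var 1)))
  obtain ⟨F, hF⟩ := TD.exists_name hT
  set c : D := a ⊓ TD.b1 hT F with hcdef
  have hlc : lam c := by
    obtain ⟨f, hf, hf'⟩ := hc
    refine hl.inf hlam ((TD.b1_iff hT).1 (hF lam hl f ⟨hf, fun y hy => ?_⟩))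
    obtain ⟨x, hx⟩ := hf' y hy
    exact ⟨x, hf.dom (zfc hl) hx, hx⟩
  have hc0 : c ≠ ⊥ := fun h0 => hl.bot (h0 ▸ hlc)
  have hA : ∀ x : BSet D, TD1 (D := D) fun lam hl z => App (E hl) (val hl F) z (val hl x) :=
    fun x => TD.app (Tm.const _) (Tm.var 0) (Tm.const _)
  let g : K → Wo.{u} → D := fun β w => TD.b1 (hA (f β)) (chk w)
  have h1 : ∀ β, c ≤ ⨆ w, g β w := by
    intro β
    rw [le_iff_ultra]
    intro lam hl hlam
    obtain ⟨h2, h3⟩ := hl.inf_iff.1 hlam
    have h4 := (TD.b1_iff hT (hl := hl)).2 h3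
    exact (exists_chkT_iff (hA (f β))).1 (h4.2 _ (E_val.2 (hl.mono (hC β) h2)))
  have h2 : ∀ β, ∃ w, c ⊓ g β w ≠ ⊥ := by
    intro β
    by_contra h3
    push Not at h3
    apply hc0
    rw [← inf_eq_left.2 (h1 β), inf_iSup_eq, iSup_eq_bot]
    exact h3
  choose w hw using h2
  have hreg := hK.card.isRegular
  obtain ⟨w0, hw0⟩ := Cardinal.infinite_pigeonhole_card w (#K) le_rfl hK.card.aleph0_lt.le (by
    rw [hreg.cof_ord, mk_Wo]
    have h4 := hK.card.isStrongLimit.isStrongPrelimit hK.card.aleph0_lt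
    refine lt_of_le_of_lt ?_ h4
    rw [← succ_aleph0]
    exact Order.succ_le_of_lt (cantor _))
  have h3 := h.cc (w ⁻¹' {w0}) (fun β => c ⊓ g β.1 w0) (by
    intro β
    have h4 := hw β.1
    rwa [show w β.1 = w0 from β.2] at h4) (by
    intro β β' hne
    rw [eq_bot_iff_ultra]
    intro lam hl hlam
    obtain ⟨h4, h5⟩ := hl.inf_iff.1 hlam
    obtain ⟨h6, h7⟩ := hl.inf_iff.1 h4
    have h8 := (TD.b1_iff hT (hl := hl)).2 (hl.inf_iff.1 h6).2
    have h9 := h8.1.val (zfc hl) ((TD.b1_iff (hA (f β.1)) (hl := hl)).2 h7)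
      ((TD.b1_iff (hA (f β'.1)) (hl := hl)).2 (hl.inf_iff.1 h5).2)
    rw [val_eq, hf β.1 β'.1 (fun h => hne (Subtype.ext h))] at h9
    exact hl.bot h9)
  exact absurd h3 (not_lt.2 hw0)

/-- `κ` is not covered by `ω₁`. -/
theorem not_cov_K (h : CoreD K D) (hK : Inacc K) {lam : D → Prop} (hl : IsUF lam) :
    ¬ Cov (E hl) (val hl (chkT Wo : BSet D)) (val hl (chkT K)) := by
  refine not_cov_family h hK (f := fun β => chk β) (fun β β' hne => beq_chk_ne hne) (a := ⊤) ?_ hl
    hl.top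
  intro β
  rw [le_iff_ultra]
  intro lam hl _
  exact (E_val (hl := hl)).1 (E_chkT β)

/-- The elements of `κ` are covered by `ω₁`. -/
theorem cov_K (h : CoreD K D) {lam : D → Prop} (hl : IsUF lam) :
    ∀ x, E hl x (val hl (chkT K)) → Cov (E hl) (val hl (chkT Wo : BSet D)) x := by
  refine forall_chkT (P := fun lam hl x => Cov (E hl) (val hl (chkT Wo)) x)
    (TD.cov1 (Tm.const _) (Tm.var 0)) (a := ⊤) ?_ hl.top
  intro δ lam hl _
  rw [chk_eq δ]
  obtain ⟨g, hg1, hg2⟩ := h.coll δ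
  have hW : #Wo.{u} = #W1.{u} := by
    rw [mk_Wo]
    exact (mk_out _).symm
  obtain ⟨e⟩ := Cardinal.eq.1 hW
  refine cov_names (c := (⊤ : D)) (fun (i : Wo.{u}) (x : Iio δ) => g (e i) x.1) ?_ ?_ hl hl.top
  · intro i i' x y
    by_cases hi : i = i'
    · subst hi
      by_cases hxy : x = y
      · subst hxy
        rw [beq_refl (chk x.1)]
        exact le_top
      · rw [hg1 (e i) x.1 y.1 (fun h => hxy (Subtype.ext h))]
        simp
    · rw [beq_chk_ne hi]
      simp
  · intro x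
    refine (hg2 x.1 x.2).ge.trans ?_
    refine iSup_le fun w => ?_
    refine le_iSup_of_le (e.symm w) ?_
    rw [e.apply_symm_apply]

/-- The powerset of `ω` is not covered by `ω₁`. -/
theorem not_cov_reals (h : CoreD K D) (hK : Inacc K) {lam : D → Prop} (hl : IsUF lam) (c : X hl)
    (hc : ∀ x, E hl x c ↔ Sub (E hl) x (val hl omB)) :
    ¬ Cov (E hl) (val hl (chkT Wo : BSet D)) c := by
  have hT : TD1 (D := D) fun lam hl c => ∀ x, E hl x c ↔ Sub (E hl) x (val hl omB) :=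
    TD.all (P := fun lam hl x v => E hl x (v 0) ↔ Sub (E hl) x (val hl omB))
      (TD.iff (TD.mem (Tm.var 0) (Tm.var 1)) (TD.sub (Tm.var 0) (Tm.const _)))
  obtain ⟨C, hC⟩ := TD.exists_name hT
  have hC' : ∀ (lam : D → Prop) (hl : IsUF lam) x, E hl x (val hl C) ↔ Sub (E hl) x (val hl omB) := by
    intro lam hl
    obtain ⟨c, hc⟩ := (zfc hl).exPow (val hl omB)
    exact hC lam hl c hc
  have hcC : c = val hl C := (zfc hl).ext _ _ fun x => (hc x).trans (hC' lam hl x).symm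
  rw [hcC]
  obtain ⟨x, hx⟩ := h.reals
  let f : K → BSet D := fun β => mk (ULift.{u} ℕ) (fun n => natB n.down) fun n => x β n.down
  have hfm : ∀ β n, bmem (natB n) (f β) = x β n := by
    intro β n
    have h1 : bmem (natB n) (f β) = ⨆ m : ULift.{u} ℕ, x β m.down ⊓ beq (natB n) (natB m.down) := rfl
    rw [h1]
    apply le_antisymm
    · refine iSup_le fun m => ?_
      by_cases hm : n = m.down
      · rw [hm]
        exact inf_le_left
      · rw [beq_natB_ne hm, inf_bot_eq]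
        exact bot_le
    · refine le_iSup_of_le ⟨n⟩ ?_
      change x β n ≤ x β n ⊓ beq (natB n) (natB n)
      rw [beq_refl, inf_top_eq]
  refine not_cov_family h hK (f := f) ?_ (a := ⊤) ?_ hl hl.top
  · intro β β' hne
    rw [← le_bot_iff, ← top_inf_eq (beq (f β) (f β')), ← hx β β' hne, iSup_inf_eq]
    refine iSup_le fun n => ?_
    rw [← hfm β n, ← hfm β' n, inf_comm, inf_sup_left]
    refine sup_le ?_ ?_
    · have h1 := bmem_congr_right (natB n) (f β) (f β')
      calc beq (f β) (f β') ⊓ (bmem (natB n) (f β) ⊓ (bmem (natB n) (f β'))ᶜ)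
          = (beq (f β) (f β') ⊓ bmem (natB n) (f β)) ⊓ (bmem (natB n) (f β'))ᶜ := (inf_assoc _ _ _).symm
        _ ≤ bmem (natB n) (f β') ⊓ (bmem (natB n) (f β'))ᶜ := inf_le_inf_right _ h1
        _ = ⊥ := inf_compl_eq_bot
        _ ≤ ⊥ := le_rfl
    · have h1 := bmem_congr_right (natB n) (f β') (f β)
      rw [beq_symm] at h1
      calc beq (f β) (f β') ⊓ ((bmem (natB n) (f β))ᶜ ⊓ bmem (natB n) (f β'))
          = (beq (f β) (f β') ⊓ bmem (natB n) (f β')) ⊓ (bmem (natB n) (f β))ᶜ := by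
            rw [inf_comm (bmem (natB n) (f β))ᶜ, inf_assoc]
        _ ≤ bmem (natB n) (f β) ⊓ (bmem (natB n) (f β))ᶜ := inf_le_inf_right _ h1
        _ = ⊥ := inf_compl_eq_bot
        _ ≤ ⊥ := le_rfl
  · intro β
    rw [le_iff_ultra]
    intro lam hl _
    refine E_val.1 ((hC' lam hl _).2 ?_)
    intro z hz
    revert z
    refine forall_mk (P := fun lam hl z => E hl z (val hl omB)) (TD.mem (Tm.var 0) (Tm.const _))
      (a := ⊤) ?_ hl.top
    intro n lam hl _ _
    exact E_omB n.down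

end Pool.Agent.W_MP_315f31_lc
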