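import Pool.Agent.W_315f31_h40.Cards
import Pool.Agent.W_MP_315f31_lc.C.AT
import Pool.Agent.BVM_h40.Generic

/-!
# MP_315f31_lc : truth values for the forcing axiom

`SS H Q N` is the truth value of: `N` is a countable elementary substructure of `H` which contains `Q`
and `Q` is not totally proper with respect to `N`; `WW H Q` is a name which attains the supremum over
all names `N`.
-/

universe u

open Cardinal Set HESR IM.BSet DCM
open IM (BSet)

namespace BVM

variable {D : Type u} [CompleteBooleanAlgebra D]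

theorem TD.isCtb {k : ℕ} {f : ∀ (lam : D → Prop) (hl : IsUF lam), (Fin k → X hl) → X hl}
    (hf : Tm f) : TD fun lam hl v => IsCtb (E hl) (f lam hl v) :=
  TD.fo1 (R := fun _ E a => IsCtb E a) (IsCtb.fo 0) hf

theorem IsDense.fo {k : ℕ} (a b c : Fin k) : FO.{u} (fun _ E v => IsDense E (v a) (v b) (v c)) := by
  unfold IsDense; (repeat' (first | exact App.fo _ _ _ | exact Sub.fo _ _ | exact FO.mem _ _ | exact FO.eq _ _ | apply FO.not | apply FO.and | apply FO.or | apply FO.iff | apply FO.imp | apply FO.ex | apply FO.all))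

theorem TD.isDense {k : ℕ} {f g l : ∀ (lam : D → Prop) (hl : IsUF lam), (Fin k → X hl) → X hl}
    (hf : Tm f) (hg : Tm g) (hl' : Tm l) :
    TD fun lam hl v => IsDense (E hl) (f lam hl v) (g lam hl v) (l lam hl v) :=
  TD.fo3 (R := fun _ E a b c => IsDense E a b c) (IsDense.fo 0 1 2) hf hg hl'

/-- Elementarity for one formula. -/
def Elem1 {M : Type*} (E : M → M → Prop) {k : ℕ} (φ : Fml k) (N H : M) : Prop :=
  ∀ v : Fin k → M, (∀ i, E (v i) N) → (SatIn E N φ v ↔ SatIn E H φ v)

theorem Elem1.fo {k m : ℕ} (φ : Fml k) (a b : Fin m) :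
    FO.{u} (fun _ E v => Elem1 E φ (v a) (v b)) := by
  unfold Elem1
  refine FO.allVec (R := fun T E w v => (∀ i, E (w i) (v a)) → (SatIn E (v a) φ w ↔ SatIn E (v b) φ w)) ?_
  refine FO.imp ?_ ?_
  · exact FO.allFin (R := fun i T E w => E (w (Fin.natAdd m i)) (w (Fin.castAdd k a))) fun i => FO.mem _ _
  · exact FO.iff (FO.satIn φ (fun i => Fin.natAdd m i) (Fin.castAdd k a))
      (FO.satIn φ (fun i => Fin.natAdd m i) (Fin.castAdd k b))

theorem TD.elem1 {m k : ℕ} (φ : Fml m) {f g : ∀ (lam : D → Prop) (hl : IsUF lam), (Fin k → X hl) → X hl}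
    (hf : Tm f) (hg : Tm g) : TD fun lam hl v => Elem1 (E hl) φ (f lam hl v) (g lam hl v) :=
  TD.fo2 (R := fun _ E a b => Elem1 E φ a b) (Elem1.fo φ 0 1) hf hg

/-- Total properness of `Q` with respect to the single model `N`. -/
def TG {M : Type*} (E : M → M → Prop) (N Q : M) : Prop :=
  ∀ P le, IsPair E Q P le → ∀ p, E p P → E p N → ∃ r, E r P ∧ App E le r p ∧
    ∀ A, E A N → IsDense E P le A → ∃ x, E x A ∧ E x N ∧ App E le r x

theorem TG.fo {k : ℕ} (a b : Fin k) : FO.{u} (fun _ E v => TG E (v a) (v b)) := by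
  unfold TG; (repeat' (first | exact IsDense.fo _ _ _ | exact IsPair.fo _ _ _ | exact App.fo _ _ _ | exact Sub.fo _ _ | exact FO.mem _ _ | exact FO.eq _ _ | apply FO.not | apply FO.and | apply FO.or | apply FO.iff | apply FO.imp | apply FO.ex | apply FO.all))

/-- The finitary part of the bad event. -/
def Bd {M : Type*} (E : M → M → Prop) (H Q N : M) : Prop :=
  IsCtb E N ∧ Sub E N H ∧ E Q N ∧ ¬ TG E N Q

theorem Bd.fo {k : ℕ} (a b c : Fin k) : FO.{u} (fun _ E v => Bd E (v a) (v b) (v c)) := by
  unfold Bd; (repeat' (first | exact IsCtb.fo _ | exact TG.fo _ _ | exact Sub.fo _ _ | exact FO.mem _ _ | exact FO.eq _ _ | apply FO.not | apply FO.and))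

theorem TD.bd {k : ℕ} {f g l : ∀ (lam : D → Prop) (hl : IsUF lam), (Fin k → X hl) → X hl}
    (hf : Tm f) (hg : Tm g) (hl' : Tm l) :
    TD fun lam hl v => Bd (E hl) (f lam hl v) (g lam hl v) (l lam hl v) :=
  TD.fo3 (R := fun _ E a b c => Bd E a b c) (Bd.fo 0 1 2) hf hg hl'

/-- The truth value of the finitary part. -/
noncomputable def bdv (H Q N : BSet D) : D :=
  (TD.bd (D := D) (k := 3) (Tm.var 0) (Tm.var 1) (Tm.var 2)).b ![H, Q, N]

theorem bdv_iff {lam : D → Prop} {hl : IsUF lam} {H Q N : BSet D} :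
    Bd (E hl) (val hl H) (val hl Q) (val hl N) ↔ lam (bdv H Q N) :=
  (TD.bd (D := D) (k := 3) (Tm.var 0) (Tm.var 1) (Tm.var 2)).b_iff (hl := hl) (w := ![H, Q, N])

/-- The truth value of elementarity for one formula. -/
noncomputable def elv {m : ℕ} (φ : Fml m) (N H : BSet D) : D :=
  (TD.elem1 (D := D) (k := 2) φ (Tm.var 0) (Tm.var 1)).b ![N, H]

theorem elv_iff {lam : D → Prop} {hl : IsUF lam} {m : ℕ} {φ : Fml m} {N H : BSet D} :
    Elem1 (E hl) φ (val hl N) (val hl H) ↔ lam (elv φ N H) :=
  (TD.elem1 (D := D) (k := 2) φ (Tm.var 0) (Tm.var 1)).b_iff (hl := hl) (w := ![N, H])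

theorem le_elv {m : ℕ} {φ : Fml m} {N H : BSet D} {a : D} : a ≤ elv φ N H ↔
    ∀ (lam : D → Prop) (hl : IsUF lam), lam a → Elem1 (E hl) φ (val hl N) (val hl H) := by
  rw [le_iff_ultra]
  exact forall_congr' fun lam => forall_congr' fun hl => imp_congr_right fun _ => elv_iff.symm

/-- The truth value of the bad event for the model `N`. -/
noncomputable def SS (H Q N : BSet D) : D := bdv H Q N ⊓ ⨅ (m : ℕ) (φ : Fml m), elv φ N H

theorem ext1_SS (H Q : BSet D) : Ext1 (SS H Q) := by
  intro x y
  have h1 : ∀ a : D, a ≤ beq x y → ∀ (lam : D → Prop) (hl : IsUF lam), lam a →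
      val hl x = val hl y := fun a ha lam hl h => val_eq.2 (hl.mono ha h)
  refine le_inf ?_ ?_
  · rw [le_iff_ultra]
    intro lam hl h
    have h2 := hl.inf_iff.1 h
    rw [← bdv_iff (hl := hl), ← val_eq.2 h2.1, bdv_iff]
    exact hl.mono inf_le_left h2.2
  · refine le_iInf₂ fun m φ => ?_
    rw [le_elv]
    intro lam hl h
    have h2 := hl.inf_iff.1 h
    rw [← val_eq.2 h2.1, elv_iff]
    exact hl.mono (inf_le_right.trans (iInf₂_le m φ)) h2.2

theorem exists_WW (H Q : BSet D) : ∃ N : BSet D, ∀ N', SS H Q N' ≤ SS H Q N := by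
  obtain ⟨N, hN⟩ := full1 (SS H Q) (ext1_SS H Q)
  exact ⟨N, fun N' => hN ▸ le_iSup (SS H Q) N'⟩

/-- A name with the largest truth value of the bad event. -/
noncomputable def WW (H Q : BSet D) : BSet D := Classical.choose (exists_WW H Q)

theorem SS_le_WW (H Q N : BSet D) : SS H Q N ≤ SS H Q (WW H Q) := Classical.choose_spec (exists_WW H Q) N

/-- Bounded quantification over tuples. -/
theorem forall_mem_vec {k : ℕ} {P : ∀ (lam : D → Prop) (hl : IsUF lam), (Fin k → X hl) → Prop}
    (h : TD P) {x : BSet D} {a : D}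
    (h1 : ∀ (i : Fin k → x.ty) (lam : D → Prop) (hl : IsUF lam), lam a → (∀ n, lam (x.wt (i n))) →
      P lam hl fun n => val hl (x.fn (i n))) {lam : D → Prop} {hl : IsUF lam} (hlam : lam a) :
    ∀ w : Fin k → X hl, (∀ n, E hl (w n) (val hl x)) → P lam hl w := by
  classical
  have key : ∀ (s : Finset (Fin k)) (u : Fin k → BSet D) (i : Fin k → x.ty),
      (∀ n, n ∉ s → u n = x.fn (i n)) →
      a ⊓ ((⨅ n, if n ∈ s then ⊤ else x.wt (i n)) ⊓ ⨅ n ∈ s, bmem (u n) x) ≤ h.b u := by
    intro s
    induction s using Finset.induction_on with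
    | empty =>
      intro u i hu
      rw [h.le_b]
      intro lam hl hlam
      obtain ⟨h2, h3⟩ := hl.inf_iff.1 hlam
      have h4 := (hl.inf_iff.1 h3).1
      have h5 : u = fun n => x.fn (i n) := funext fun n => hu n (Finset.notMem_empty n)
      rw [h5]
      refine h1 i lam hl h2 fun n => hl.mono ((iInf_le _ n).trans ?_) h4
      simp
    | insert m s hm ih =>
      intro u i hu
      rw [Finset.iInf_insert]
      have h2 : bmem (u m) x = ⨆ j : x.ty, x.wt j ⊓ beq (u m) (x.fn j) := rfl
      rw [h2, iSup_inf_eq, inf_iSup_eq, inf_iSup_eq]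
      refine iSup_le fun j => ?_
      have h3 := ih (Function.update u m (x.fn j)) (Function.update i m j) (by
        intro n hn
        by_cases hnm : n = m
        · subst hnm
          simp
        · rw [Function.update_of_ne hnm, Function.update_of_ne hnm]
          exact hu n (by simp [hn, hnm]))
      rw [h.le_b]
      intro lam hl hlam
      obtain ⟨h4, h5⟩ := hl.inf_iff.1 hlam
      obtain ⟨h6, h7⟩ := hl.inf_iff.1 h5
      obtain ⟨h8, h9⟩ := hl.inf_iff.1 h7
      obtain ⟨h10, h11⟩ := hl.inf_iff.1 h8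
      have h12 : lam (h.b (Function.update u m (x.fn j))) := by
        refine hl.mono h3 (hl.inf h4 (hl.inf ?_ ?_))
        · refine hl.mono ?_ (hl.inf h6 h10)
          refine le_iInf fun n => ?_
          by_cases hnm : n = m
          · subst hnm
            simp [hm]
          · rw [Function.update_of_ne hnm]
            refine inf_le_left.trans ((iInf_le _ n).trans ?_)
            by_cases hns : n ∈ s
            · simp [hns]
            · simp [hns, hnm]
        · refine hl.mono ?_ h9
          refine le_iInf₂ fun n hn => ?_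
          have hnm : n ≠ m := fun h => hm (h ▸ hn)
          rw [Function.update_of_ne hnm]
          exact iInf₂_le n hn
      rw [← h.b_iff (hl := hl)] at h12
      have h13 : (fun n => val hl (Function.update u m (x.fn j) n)) = fun n => val hl (u n) := by
        funext n
        by_cases hnm : n = m
        · subst hnm
          rw [Function.update_self]
          exact (val_eq.2 h11).symm
        · rw [Function.update_of_ne hnm]
      rwa [h13] at h12
  intro w hw
  obtain ⟨u, rfl⟩ := exists_names w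
  by_cases hk : Nonempty (Fin k → x.ty)
  · obtain ⟨i⟩ := hk
    have h2 := key Finset.univ u i fun n hn => (hn (Finset.mem_univ n)).elim
    rw [h.b_iff]
    refine hl.mono h2 (hl.inf hlam (hl.inf ?_ ?_))
    · simp only [Finset.mem_univ, if_true, iInf_top]
      exact hl.top
    · exact hl.iInf_finset Finset.univ (fun n => bmem (u n) x) fun n _ => E_val.1 (hw n)
  · exfalso
    apply hk
    refine ⟨fun n => Classical.choice ?_⟩
    by_contra hne
    rw [not_nonempty_iff] at hne
    have h2 := E_val.1 (hw n)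
    have h3 : bmem (u n) x = ⊥ := by
      rw [bmem, iSup_of_empty]
    rw [h3] at h2
    exact hl.bot h2

end BVM
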