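import Pool.Agent.W_315f31_h40.FA0
import Pool.Agent.W_MP_315f31_lc.Club

/-!
# MP_315f31_lc : generic conditions over countable sets decide families inside the set
-/

universe u

open Cardinal Set HESR IM.BSet DCM
open IM (BSet)

namespace Pool.Agent.W_MP_315f31_lc

open BVM

variable {P Y : Type u} {L : P → P → Prop} [IsPre L]

theorem mem_of_io_le {p : P} {u : DD L} (h : io p ≤ u) : (show PL L from p) ∈ u.1 := le_io_iff.1 h

theorem io_le_of_mem {p : P} {u : DD L} (h : (show PL L from p) ∈ u.1) : io p ≤ u := le_io_iff.2 h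

/-- The order of the algebra is determined by the conditions. -/
theorem le_iff_io {u v : DD L} : u ≤ v ↔ ∀ p : P, io p ≤ u → io p ≤ v := by
  constructor
  · intro h p hp
    exact hp.trans h
  · intro h p hp
    exact mem_of_io_le (h p (io_le_of_mem hp))

/-- A condition forces a supremum iff densely below it some member is forced. -/
theorem io_le_iSup {ι : Type*} {p : P} {c : ι → DD L} : io p ≤ (⨆ i, c i) ↔
    ∀ q, L q p → ∃ r, L r q ∧ ∃ i, io r ≤ c i := by
  rw [le_io_iff, IM.RO.mem_iSup]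
  constructor
  · intro h q hq
    obtain ⟨r, hr, i, hi⟩ := h q hq
    exact ⟨r, hr, i, io_le_of_mem hi⟩
  · intro h q hq
    obtain ⟨r, hr, i, hi⟩ := h q hq
    exact ⟨r, hr, i, mem_of_io_le hi⟩

/-- The conditions deciding the family `c`. -/
def Dcd {J : Type*} (c : J → DD L) : Set P := {p | (∃ j, io p ≤ c j) ∨ io p ≤ (⨆ j, c j)ᶜ}

theorem dop_Dcd {J : Type*} (c : J → DD L) : DOp L (Dcd c) := by
  constructor
  · rintro p q (⟨j, hj⟩ | h) hqp
    · exact Or.inl ⟨j, (io_mono hqp).trans hj⟩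
    · exact Or.inr ((io_mono hqp).trans h)
  · intro p
    by_cases h : ∃ j, io p ⊓ c j ≠ ⊥
    · obtain ⟨j, hj⟩ := h
      obtain ⟨q, hq, hq'⟩ := exists_io_le_of hj
      exact ⟨q, hq, Or.inl ⟨j, hq'⟩⟩
    · push Not at h
      refine ⟨p, IsPre.refl p, Or.inr ?_⟩
      rw [le_compl_iff_disjoint_right, disjoint_iff, inf_iSup_eq, iSup_eq_bot]
      exact h

/-- A witness of a decision. -/
noncomputable def wtn {J : Type*} (c : J → DD L) (p : P) : Option J := by
  classical
  exact if h : ∃ j, io p ≤ c j then some h.choose else none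

theorem wtn_spec {J : Type*} {c : J → DD L} {p : P} (h : ∃ j, io p ≤ c j) :
    ∃ j, wtn c p = some j ∧ io p ≤ c j := by
  refine ⟨h.choose, ?_, h.choose_spec⟩
  rw [wtn, dif_pos h]

/-- Generic conditions decide families inside the model. -/
theorem gen_family (b : ℕ → List (ObA P Y) → P × Y → DD L) :
    IsClub {N : Set (ObA P Y) | ∀ q, GenA L N q → ∀ n l, (∀ z ∈ l, z ∈ N) →
      io q ≤ (⨆ j, b n l j)ᶜ ⊔ ⨆ j : {j : P × Y // ObA.p j.1 ∈ N ∧ ObA.y j.2 ∈ N}, b n l j.1} := by
  classical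
  have h0 : ∀ n, IsClub {N : Set (ObA P Y) | ∀ l, (∀ z ∈ l, z ∈ N) → ∀ z,
      some (ObA.d (Dcd (b n l))) = some z → z ∈ N} := fun n =>
    IsClub.op fun l => some (ObA.d (Dcd (b n l)))
  let f1 : ℕ → List (ObA P Y) → Option (ObA P Y) := fun n l => match l with
    | ObA.p p :: l => (wtn (b n l) p).map fun j => ObA.p j.1
    | _ => none
  let f2 : ℕ → List (ObA P Y) → Option (ObA P Y) := fun n l => match l with
    | ObA.p p :: l => (wtn (b n l) p).map fun j => ObA.y j.2
    | _ => none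
  have h1 : ∀ n, IsClub {N : Set (ObA P Y) | ∀ l, (∀ z ∈ l, z ∈ N) → ∀ z, f1 n l = some z → z ∈ N} :=
    fun n => IsClub.op (f1 n)
  have h2 : ∀ n, IsClub {N : Set (ObA P Y) | ∀ l, (∀ z ∈ l, z ∈ N) → ∀ z, f2 n l = some z → z ∈ N} :=
    fun n => IsClub.op (f2 n)
  refine ((IsClub.all h0).inter ((IsClub.all h1).inter (IsClub.all h2))).mono ?_
  rintro N ⟨hN0, hN1, hN2⟩ q hq n l hl
  refine io_le_of_mem (IM.RO.mem_of_dense ?_)
  intro q' hq'
  obtain ⟨r, hr, p, hp, hpN, hrp⟩ := hq (Dcd (b n l)) (hN0 n l hl _ rfl) (dop_Dcd _) q' hq'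
  refine ⟨r, hr, ?_⟩
  by_cases hj : ∃ j, io p ≤ b n l j
  · obtain ⟨j, hj1, hj2⟩ := wtn_spec hj
    have h3 : ObA.p j.1 ∈ N := by
      refine hN1 n (ObA.p p :: l) ?_ _ ?_
      · intro z hz
        rcases List.mem_cons.1 hz with rfl | h
        · exact hpN
        · exact hl z h
      · change (wtn (b n l) p).map (fun j => ObA.p j.1) = _
        rw [hj1]
        rfl
    have h4 : ObA.y j.2 ∈ N := by
      refine hN2 n (ObA.p p :: l) ?_ _ ?_
      · intro z hz
        rcases List.mem_cons.1 hz with rfl | h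
        · exact hpN
        · exact hl z h
      · change (wtn (b n l) p).map (fun j => ObA.y j.2) = _
        rw [hj1]
        rfl
    refine mem_of_io_le (((io_mono hrp).trans hj2).trans ?_)
    refine le_sup_of_le_right ?_
    exact le_iSup (fun j : {j : P × Y // ObA.p j.1 ∈ N ∧ ObA.y j.2 ∈ N} => b n l j.1) ⟨j, h3, h4⟩
  · have h3 : io p ≤ (⨆ j, b n l j)ᶜ := by
      rcases hp with h | h
      · exact absurd h hj
      · exact h
    exact mem_of_io_le ((io_mono hrp).trans (h3.trans le_sup_left))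

/-! ### The name `N[G] ∩ H` -/

/-- The name of the set of the elements of `H` which have a name in `N`. -/
def NG (H : BSet (DD L)) (N : Set (ObA P H.ty)) : BSet (DD L) :=
  mk {y : H.ty // ObA.y y ∈ N} (fun y => H.fn y.1) fun y => H.wt y.1

/-- The assignment given by a list of parameters. -/
def asg [Inhabited Y] (l : List (ObA P Y)) (i : ℕ) : Y :=
  match l[i]? with
  | some (ObA.y y) => y
  | _ => default

theorem asg_ofFn [Inhabited Y] {m : ℕ} (v : Fin m → Y) (i : Fin m) :
    asg (List.ofFn fun i => (ObA.y (v i) : ObA P Y)) i = v i := by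
  have h : (List.ofFn fun i => (ObA.y (v i) : ObA P Y))[(i : ℕ)]? = some (ObA.y (v i)) := by
    rw [List.getElem?_ofFn]
    simp
  rw [asg, h]

/-- The truth value of satisfaction in `A`. -/
noncomputable def satv {D : Type u} [CompleteBooleanAlgebra D] {m : ℕ} (φ : Fml m) (A : BSet D)
    (v : Fin m → BSet D) : D :=
  (TD.ofFO (D := D) (k := m + 1) (FO.satIn φ (fun i => i.succ) 0) (f := fun i _ _ v => v i)
    fun i => Tm.var i).b (Fin.cons A v)

theorem satv_iff {D : Type u} [CompleteBooleanAlgebra D] {lam : D → Prop} {hl : IsUF lam} {m : ℕ}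
    {φ : Fml m} {A : BSet D} {v : Fin m → BSet D} :
    SatIn (E hl) (val hl A) φ (fun i => val hl (v i)) ↔ lam (satv φ A v) := by
  have h := (TD.ofFO (D := D) (k := m + 1) (FO.satIn φ (fun i => i.succ) 0)
    (f := fun i _ _ v => v i) fun i => Tm.var i).b_iff (hl := hl) (w := Fin.cons A v)
  rw [satv, ← h]
  simp only [Fin.cons_zero, Fin.cons_succ]

theorem td_sat {D : Type u} [CompleteBooleanAlgebra D] {m : ℕ} (φ : Fml (m + 1)) (A : BSet D)
    (v : Fin m → BSet D) : TD1 (D := D) fun lam hl x =>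
      SatIn (E hl) (val hl A) φ (Fin.cons x fun i => val hl (v i)) := by
  refine ⟨fun w => satv φ A (Fin.cons (w 0) v), fun _ hl w => ?_⟩
  rw [← satv_iff (hl := hl), cons_val]

/-- The family for the existential quantifier. -/
noncomputable def exf {m : ℕ} (φ : Fml (m + 1)) (H : BSet (DD L)) (y : Fin m → H.ty) (j : H.ty) :
    DD L := H.wt j ⊓ satv φ H (Fin.cons (H.fn j) fun i => H.fn (y i))

/-- Generic conditions decide existential statements inside the model. -/
theorem gen_ex (H : BSet (DD L)) [Inhabited H.ty] : IsClub {N : Set (ObA P H.ty) | ∀ q, GenA L N q →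
    ∀ (m : ℕ) (φ : Fml (m + 1)) (y : Fin m → H.ty), (∀ i, ObA.y (y i) ∈ N) →
      io q ≤ (⨆ j, exf φ H y j)ᶜ ⊔ ⨆ j : {y : H.ty // ObA.y y ∈ N}, exf φ H y j.1} := by
  have : Nonempty (Σ m : ℕ, Fml (m + 1)) := ⟨⟨0, .mem 0 0⟩⟩
  obtain ⟨e, he⟩ := exists_surjective_nat (Σ m : ℕ, Fml (m + 1))
  refine (gen_family (L := L) (Y := H.ty) fun n l j =>
    exf (e n).2 H (fun i => asg l i) j.2).mono ?_
  intro N hN q hq m φ y hy
  obtain ⟨n, hn⟩ := he ⟨m, φ⟩
  have h1 := hN q hq n (List.ofFn fun i => ObA.y (y i)) (by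
    intro z hz
    obtain ⟨i, rfl⟩ := (List.mem_ofFn' _ _).1 hz
    exact hy i)
  rw [hn] at h1
  have h2 : (fun i : Fin m => asg (List.ofFn fun i => (ObA.y (y i) : ObA P H.ty)) i) = y :=
    funext fun i => asg_ofFn y i
  have h3 : ∀ j : H.ty, exf φ H (fun i : Fin m => asg (List.ofFn fun i =>
      (ObA.y (y i) : ObA P H.ty)) i) j = exf φ H y j := fun j => by rw [h2]
  simp only [h3] at h1
  refine h1.trans (sup_le_sup (compl_le_compl ?_) ?_)
  · exact iSup_le fun j => le_iSup (fun jj : P × H.ty => exf φ H y jj.2) (q, j)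
  · refine iSup_le fun j => ?_
    exact le_iSup (fun j : {y : H.ty // ObA.y y ∈ N} => exf φ H y j.1) ⟨j.1.2, j.2.2⟩

/-- `N[G] ∩ H` is an elementary substructure of `H`: names in `N`. -/
theorem elem_aux {H : BSet (DD L)} {N : Set (ObA P H.ty)} {q : P}
    (hq : ∀ (m : ℕ) (φ : Fml (m + 1)) (y : Fin m → H.ty), (∀ i, ObA.y (y i) ∈ N) →
      io q ≤ (⨆ j, exf φ H y j)ᶜ ⊔ ⨆ j : {y : H.ty // ObA.y y ∈ N}, exf φ H y j.1)
    {m : ℕ} (φ : Fml m) : ∀ y : Fin m → H.ty, (∀ i, ObA.y (y i) ∈ N) →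
      ∀ (lam : DD L → Prop) (hl : IsUF lam), lam (io q) → (∀ i, lam (H.wt (y i))) →
        (SatIn (E hl) (val hl (NG H N)) φ (fun i => val hl (H.fn (y i))) ↔
          SatIn (E hl) (val hl H) φ (fun i => val hl (H.fn (y i)))) := by
  induction φ with
  | mem i j =>
    intro y hy lam hl hlam hw
    exact Iff.rfl
  | eq i j =>
    intro y hy lam hl hlam hw
    exact Iff.rfl
  | neg φ ih =>
    intro y hy lam hl hlam hw
    simp only [SatIn]
    rw [ih y hy lam hl hlam hw]
  | and φ ψ ih1 ih2 =>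
    intro y hy lam hl hlam hw
    simp only [SatIn]
    rw [ih1 y hy lam hl hlam hw, ih2 y hy lam hl hlam hw]
  | @ex m φ ih =>
    intro y hy lam hl hlam hw
    simp only [SatIn]
    have hwt : lam (⨅ i, H.wt (y i)) := by
      have h1 := hl.iInf_finset Finset.univ (fun i => H.wt (y i)) fun i _ => hw i
      refine hl.mono (le_iInf fun i => ?_) h1
      exact iInf₂_le i (Finset.mem_univ i)
    have hc : ∀ (j : H.ty) (lam : DD L → Prop) (hl : IsUF lam),
        (fun i => val hl (H.fn ((Fin.cons j y : Fin (m + 1) → H.ty) i))) =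
          (Fin.cons (val hl (H.fn j)) fun i => val hl (H.fn (y i)) : Fin (m + 1) → X hl) := by
      intro j lam hl
      funext i
      refine Fin.cases ?_ (fun i => ?_) i
      · simp only [Fin.cons_zero]
      · simp only [Fin.cons_succ]
    -- the two families agree for indices in `N`
    have key : ∀ j : H.ty, ObA.y j ∈ N → ∀ (lam : DD L → Prop) (hl : IsUF lam), lam (io q) →
        lam (⨅ i, H.wt (y i)) → lam (H.wt j) →
        (SatIn (E hl) (val hl (NG H N)) φ (Fin.cons (val hl (H.fn j)) fun i => val hl (H.fn (y i))) ↔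
          SatIn (E hl) (val hl H) φ (Fin.cons (val hl (H.fn j)) fun i => val hl (H.fn (y i)))) := by
      intro j hj lam hl hlam hwt hwj
      have h1 := ih (Fin.cons j y) (fun i => by
        refine Fin.cases ?_ (fun i => ?_) i
        · simpa only [Fin.cons_zero] using hj
        · simpa only [Fin.cons_succ] using hy i) lam hl hlam (fun i => by
        refine Fin.cases ?_ (fun i => ?_) i
        · simpa only [Fin.cons_zero] using hwj
        · simpa only [Fin.cons_succ] using hl.mono (iInf_le _ i) hwt)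
      rwa [hc] at h1
    have hA : (∃ x, E hl x (val hl (NG H N)) ∧ SatIn (E hl) (val hl (NG H N)) φ
        (Fin.cons x fun i => val hl (H.fn (y i)))) ↔
        lam (⨆ j : {y : H.ty // ObA.y y ∈ N}, H.wt j.1 ⊓
          TD.b1 (td_sat φ (NG H N) fun i => H.fn (y i)) (H.fn j.1)) :=
      exists_mk_iff (td_sat φ (NG H N) fun i => H.fn (y i))
    have hB : (∃ x, E hl x (val hl H) ∧ SatIn (E hl) (val hl H) φ
        (Fin.cons x fun i => val hl (H.fn (y i)))) ↔
        lam (⨆ j : H.ty, H.wt j ⊓ TD.b1 (td_sat φ H fun i => H.fn (y i)) (H.fn j)) :=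
      exists_mem_iff (td_sat φ H fun i => H.fn (y i))
    have he : ∀ j, H.wt j ⊓ TD.b1 (td_sat φ H fun i => H.fn (y i)) (H.fn j) = exf φ H y j := by
      intro j
      rw [exf]
      congr 1
      rw [eq_iff_ultra]
      intro lam hl
      rw [← TD.b1_iff (td_sat φ H fun i => H.fn (y i)) (hl := hl), ← satv_iff (hl := hl), cons_val]
    simp only [he] at hB
    rw [hA, hB]
    have hle : io q ⊓ (⨅ i, H.wt (y i)) ⊓ (⨆ j : {y : H.ty // ObA.y y ∈ N}, exf φ H y j.1) ≤
        ⨆ j : {y : H.ty // ObA.y y ∈ N}, H.wt j.1 ⊓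
          TD.b1 (td_sat φ (NG H N) fun i => H.fn (y i)) (H.fn j.1) := by
      rw [inf_iSup_eq]
      refine iSup_mono fun j => ?_
      rw [← he, le_iff_ultra]
      intro lam hl h1
      obtain ⟨h2, h3⟩ := hl.inf_iff.1 h1
      obtain ⟨h4, h5⟩ := hl.inf_iff.1 h2
      obtain ⟨h6, h7⟩ := hl.inf_iff.1 h3
      refine hl.inf h6 ?_
      rw [← TD.b1_iff (td_sat φ (NG H N) fun i => H.fn (y i)) (hl := hl), key j.1 j.2 lam hl h4 h5 h6]
      exact (TD.b1_iff (td_sat φ H fun i => H.fn (y i)) (hl := hl)).2 h7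
    have hge : io q ⊓ (⨅ i, H.wt (y i)) ⊓ (⨆ j : {y : H.ty // ObA.y y ∈ N}, H.wt j.1 ⊓
          TD.b1 (td_sat φ (NG H N) fun i => H.fn (y i)) (H.fn j.1)) ≤
        ⨆ j : H.ty, exf φ H y j := by
      rw [inf_iSup_eq]
      refine iSup_le fun j => le_iSup_of_le j.1 ?_
      rw [← he, le_iff_ultra]
      intro lam hl h1
      obtain ⟨h2, h3⟩ := hl.inf_iff.1 h1
      obtain ⟨h4, h5⟩ := hl.inf_iff.1 h2
      obtain ⟨h6, h7⟩ := hl.inf_iff.1 h3
      refine hl.inf h6 ?_
      rw [← TD.b1_iff (td_sat φ H fun i => H.fn (y i)) (hl := hl), ← key j.1 j.2 lam hl h4 h5 h6]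
      exact (TD.b1_iff (td_sat φ (NG H N) fun i => H.fn (y i)) (hl := hl)).2 h7
    constructor
    · intro h1
      exact hl.mono hge (hl.inf (hl.inf hlam hwt) h1)
    · intro h1
      have h2 := hl.mono (hq m φ y hy) hlam
      rcases hl.sup_iff.1 h2 with h3 | h3
      · exact (hl.compl_iff.1 h3 h1).elim
      · exact hl.mono hle (hl.inf (hl.inf hlam hwt) h3)

/-- `N[G] ∩ H` is an elementary substructure of `H`. -/
theorem elem_NG (H : BSet (DD L)) : IsClub {N : Set (ObA P H.ty) | ∀ q, GenA L N q →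
    ∀ (m : ℕ) (φ : Fml m), io q ≤ elv φ (NG H N) H} := by
  rcases isEmpty_or_nonempty H.ty with hH | ⟨⟨y0⟩⟩
  · refine IsClub.univ.mono ?_
    intro N _ q _ m φ
    rw [le_elv]
    intro lam hl _
    have h1 : val hl (NG H N) = val hl H := by
      refine (zfc hl).ext _ _ fun x => ?_
      obtain ⟨x, rfl⟩ := exists_name x
      rw [E_val, E_val]
      have h2 : bmem x H = ⊥ := by rw [bmem, iSup_of_empty]
      have h3 : bmem x (NG H N) = ⊥ := by
        rw [bmem]
        have : IsEmpty (NG H N).ty := ⟨fun y => hH.elim y.1⟩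
        rw [iSup_of_empty]
      rw [h2, h3]
    rw [h1]
    intro v _
    exact Iff.rfl
  · have : Inhabited H.ty := ⟨y0⟩
    refine (gen_ex (L := L) H).mono ?_
    intro N hN q hq m φ
    rw [le_elv]
    intro lam hl hlam
    have hT : TD (D := DD L) (k := m) fun lam hl v =>
        (SatIn (E hl) (val hl (NG H N)) φ v ↔ SatIn (E hl) (val hl H) φ v) := by
      refine TD.iff ⟨fun w => satv φ (NG H N) w, fun lam hl w => satv_iff⟩
        ⟨fun w => satv φ H w, fun lam hl w => satv_iff⟩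
    exact forall_mem_vec hT (x := NG H N) (a := io q) (fun i lam hl hlam hw =>
      elem_aux (hN q hq) φ (fun n => (i n).1) (fun n => (i n).2) lam hl hlam hw) hlam

end Pool.Agent.W_MP_315f31_lc
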