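import Pool.Agent.W_315f31_h40.FA1

/-!
# MP_315f31_lc : the name of the poset on the indices of `H`

`H`, `Q = (Pn, le)` are names, `a` forces that `H` is transitive, contains `Q` and all subsets of `Pn`.
The poset `Pn` is replaced by the preorder `rv` on the type of indices `H.ty`: the index `x` stands for
the element `H.fn x` if this is an element of `Pn` (truth value `cP x`), otherwise `x` is a largest
element.

PROOFS. `mem_H`: `Pn ∈ H` because `Q = (Pn, le)` is a pair in the transitive set `H`; `H` is transitive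
(or: `Pn` is a subset of `Pn`, so `Pn ∈ H`).  `pord_rho`: unfold `rho`, `rv`; everything follows from
`rv_iff` in all quotients with `lam a` (`le_iff_ultra`; if `lam a` fails then `rv` holds trivially);
`reg`: `io_le_of_mem (IM.RO.mem_of_dense ..)`.  `isDense_DE`: `DE S ⊆ Pn` by `forall_mk` (the weight gives
`cP`).  Dense: by `forall_mem` for the name `H` (as `Pn ⊆ H`; use `a` as lower bound) it is enough to
consider `x = H.fn y'`: if `lam (cP H Pn y')` we need `∃ z ∈ DE S, z ≤ H.fn y'`, i.e. by `exists_mk_iff`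
`lam (⨆ y'', weight y'' ⊓ apv le (H.fn y'') (H.fn y'))`. This holds because
`a ⊓ cP H Pn y' ≤ ⨆ y'', (a ⊓ cP y'' ⊓ ⨆ p, io p) ⊓ apv ..`: by `le_iff_io` and `io_le_iSup`-density: if
`io p' ≤ a ⊓ cP y'` then for every `q ≤ p'` there are by `DOs` (second part, applied to `q, y'`) `p'' ≤ q` and
`y''` with `rho y'' y' p''` and `(p'', y'') ∈ S`; then `io p'' ≤ a ⊓ cP y' ⊓ rv y'' y'`, so
`io p'' ≤ cP y'' ⊓ apv (H.fn y'') (H.fn y')`.
-/

universe u

open Cardinal Set HESR IM.BSet DCM
open IM (BSet)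

namespace Pool.Agent.W_MP_315f31_lc

open BVM

variable {P : Type u} {L : P → P → Prop} [IsPre L]

/-- The index `x` stands for an element of the poset. -/
noncomputable def cP (H Pn : BSet (DD L)) (x : H.ty) : DD L := H.wt x ⊓ bmem (H.fn x) Pn

/-- The truth value of `(x, y) ∈ le`. -/
noncomputable def apv (le x y : BSet (DD L)) : DD L :=
  (TD.app (D := DD L) (k := 3) (Tm.var 0) (Tm.var 1) (Tm.var 2)).b ![le, x, y]

theorem apv_iff {lam : DD L → Prop} {hl : IsUF lam} {le x y : BSet (DD L)} :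
    App (E hl) (val hl le) (val hl x) (val hl y) ↔ lam (apv le x y) :=
  (TD.app (D := DD L) (k := 3) (Tm.var 0) (Tm.var 1) (Tm.var 2)).b_iff (hl := hl)
    (w := ![le, x, y])

theorem cP_iff {lam : DD L → Prop} {hl : IsUF lam} {H Pn : BSet (DD L)} {x : H.ty} :
    lam (cP H Pn x) ↔ lam (H.wt x) ∧ E hl (val hl (H.fn x)) (val hl Pn) := by
  rw [cP, hl.inf_iff, E_val]

/-- The preorder on the indices. -/
noncomputable def rv (H Pn le : BSet (DD L)) (a : DD L) (x y : H.ty) : DD L :=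
  aᶜ ⊔ ((cP H Pn y)ᶜ ⊔ (cP H Pn x ⊓ apv le (H.fn x) (H.fn y)))

theorem rv_iff {lam : DD L → Prop} (hl : IsUF lam) {H Pn le : BSet (DD L)} {a : DD L} {x y : H.ty}
    (ha : lam a) : lam (rv H Pn le a x y) ↔
      (lam (cP H Pn y) → lam (cP H Pn x) ∧
        App (E hl) (val hl le) (val hl (H.fn x)) (val hl (H.fn y))) := by
  rw [rv, hl.sup_iff, hl.sup_iff, hl.compl_iff, hl.compl_iff, hl.inf_iff, apv_iff]
  tauto

theorem rv_of_not {lam : DD L → Prop} (hl : IsUF lam) {H Pn le : BSet (DD L)} {a : DD L} {x y : H.ty}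
    (ha : ¬ lam a) : lam (rv H Pn le a x y) := by
  rw [rv, hl.sup_iff, hl.compl_iff]
  exact Or.inl ha

/-- The name of the preorder in forcing form. -/
def rho (H Pn le : BSet (DD L)) (a : DD L) : H.ty → H.ty → P → Prop :=
  fun x y p => io p ≤ rv H Pn le a x y

/-- The hypotheses on the names. -/
def Hyp (H Q Pn le : BSet (DD L)) (a : DD L) : Prop :=
  ∀ (lam : DD L → Prop) (hl : IsUF lam), lam a →
    IsPo (E hl) (val hl Q) (val hl Pn) (val hl le) ∧ IsTr (E hl) (val hl H) ∧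
      E hl (val hl Q) (val hl H) ∧ ∀ A, Sub (E hl) A (val hl Pn) → E hl A (val hl H)

/-- The truth value of `N` being in `A_E`: the name of the subset of `Pn` given by `E`. -/
noncomputable def DE (H Pn : BSet (DD L)) (a : DD L) (S : Set (P × H.ty)) : BSet (DD L) :=
  mk H.ty H.fn fun y => a ⊓ cP H Pn y ⊓ ⨆ p : {p : P // (p, y) ∈ S}, io p.1

section

variable {H Q Pn le : BSet (DD L)} {a : DD L} (h : Hyp H Q Pn le a)

include h

/-- Elements of the poset have indices. -/
theorem Hyp.mem_H {lam : DD L → Prop} {hl : IsUF lam} (ha : lam a) {z : X hl}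
    (hz : E hl z (val hl Pn)) : E hl z (val hl H) := by
  obtain ⟨_, h1, _, h2⟩ := h lam hl ha
  exact h1 _ (h2 _ fun z hz => hz) z hz

theorem pord_rho : POrd L (rho H Pn le a) := by
  refine ⟨?_, ?_, ?_, ?_⟩
  · intro x p
    show io p ≤ rv H Pn le a x x
    rw [le_iff_ultra]
    intro lam hl _
    by_cases ha : lam a
    · obtain ⟨⟨_, _, _, h1, _⟩, _⟩ := h lam hl ha
      rw [rv_iff hl ha]
      exact fun h2 => ⟨h2, h1 _ (cP_iff.1 h2).2⟩
    · exact rv_of_not hl ha
  · intro x y z p hxy hyz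
    show io p ≤ rv H Pn le a x z
    rw [le_iff_ultra]
    intro lam hl hp
    by_cases ha : lam a
    · obtain ⟨⟨_, _, _, _, h1⟩, _⟩ := h lam hl ha
      have h2 := (rv_iff hl ha).1 (hl.mono hxy hp)
      have h3 := (rv_iff hl ha).1 (hl.mono hyz hp)
      rw [rv_iff hl ha]
      intro h4
      have h5 := h3 h4
      have h6 := h2 h5.1
      exact ⟨h6.1, h1 _ _ _ h6.2 h5.2⟩
    · exact rv_of_not hl ha
  · intro x y p q hxy hqp
    exact (io_mono hqp).trans hxy
  · intro x y p hd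
    refine io_le_of_mem (IM.RO.mem_of_dense ?_)
    intro q hq
    obtain ⟨r, hr, hr'⟩ := hd q hq
    exact ⟨r, hr, mem_of_io_le hr'⟩

/-- `DE S` is a dense subset of the poset if `S` is dense open in `P * Y`. -/
theorem isDense_DE {S : Set (P × H.ty)} (hS : DOs L (rho H Pn le a) S) {lam : DD L → Prop}
    {hl : IsUF lam} (ha : lam a) :
    IsDense (E hl) (val hl Pn) (val hl le) (val hl (DE H Pn a S)) := by
  constructor
  · have h0 : TD1 (D := DD L) fun _ hl z => E hl z (val hl Pn) := TD.mem (Tm.var 0) (Tm.const Pn)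
    refine forall_mk h0 (a := a) ?_ ha
    intro i lam hl _ hw
    exact (cP_iff.1 (hl.inf_iff.1 (hl.inf_iff.1 hw).1).2).2
  · intro x hx
    have h0 : TD1 (D := DD L) fun _ hl z => E hl z (val hl Pn) →
        ∃ y, E hl y (val hl (DE H Pn a S)) ∧ App (E hl) (val hl le) y z :=
      (TD.mem (Tm.var 0) (Tm.const Pn)).imp (TD.ex (k := 1)
        (P := fun _ hl y v => E hl y (val hl (DE H Pn a S)) ∧ App (E hl) (val hl le) y (v 0))
        ((TD.mem (Tm.var 0) (Tm.const (DE H Pn a S))).and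
          (TD.app (Tm.const le) (Tm.var 0) (Tm.var 1))))
    refine forall_mem h0 (x := H) (a := a) ?_ ha x (h.mem_H ha hx) hx
    intro i lam hl ha hi hiP
    have h1 : TD1 (D := DD L) fun _ hl z => App (E hl) (val hl le) z (val hl (H.fn i)) :=
      TD.app (Tm.const le) (Tm.var 0) (Tm.const (H.fn i))
    refine (exists_mk_iff h1).2 ?_
    have h2 : lam (a ⊓ cP H Pn i) := hl.inf ha (cP_iff.2 ⟨hi, hiP⟩)
    refine hl.mono ?_ h2
    rw [le_iff_io]
    intro p hp
    rw [io_le_iSup]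
    intro q hq
    obtain ⟨p', y', h3, h4, h5⟩ := hS.2 q i
    refine ⟨p', h3, y', ?_⟩
    have h6 : io p' ≤ a ⊓ cP H Pn i := (io_mono (IsPre.trans _ _ _ h3 hq)).trans hp
    have h7 : io p' ≤ ⨆ p : {p : P // (p, y') ∈ S}, (io p.1 : DD L) :=
      le_iSup (fun p : {p : P // (p, y') ∈ S} => (io p.1 : DD L)) ⟨p', h5⟩
    rw [le_iff_ultra]
    intro lam hl hlp
    obtain ⟨h8, h9⟩ := hl.inf_iff.1 (hl.mono h6 hlp)
    obtain ⟨h10, h11⟩ := (rv_iff hl h8).1 (hl.mono h4 hlp) h9
    refine hl.inf (hl.inf (hl.inf h8 h10) (hl.mono h7 hlp)) ?_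
    exact (TD.b1_iff h1).1 h11

end

end Pool.Agent.W_MP_315f31_lc
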