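import Pool.Agent.W_315f31_h40.FA2

/-!
# MP_315f31_lc : total properness of the poset

PROOF of `tpn_rho`.  `Y = H.ty`, `hn y = H.fn y`.  In every quotient `X hl` with `lam a` the event
`SS H Q N` fails for every name `N` (`SS_le_WW`, `hS`).
CLUB: use `IsClub.ctbl`, `elem_NG H` and `gen_family` (one call, `b n l j` by cases on `n` and `l`) for the
families (`l` is the list of parameters, `j = (p, y)`):
(0) `b 0 l (p, y) = H.wt y ⊓ beq Q (H.fn y)`  (gives `Q ∈ NG`);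
(1) `b 1 [ObA.s S] (p, y) = H.wt y ⊓ beq (DE H Pn a S) (H.fn y)`  (gives `DE S ∈ NG`, because `DE S` is a
subset of `Pn`, so an element of `H`, by `Hyp`);
(2) `b 2 [ObA.s S, ObA.y y0] (p, y) = if (p, y) ∈ S then io p ⊓ cP H Pn y ⊓ beq (H.fn y0) (H.fn y) else ⊥`
(gives: if `H.fn y0 ∈ DE S` then `H.fn y0 = H.fn y` for some `(p, y) ∈ S` with `p, y` in `N`, `p` in the
generic ultrafilter and `H.fn y` in `Pn`);
(3) `b 3 l (p, y) = cP H Pn y`  (gives an element of `Pn` in `NG`).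
Let `N` be in the club, `q` with `L q p0` and `GenA L N q`, `y0` with `ObA.y y0 ∈ N`.
STEP 1: for `lam (io q)` (so `lam a`): `IsCtb (NG H N)` (it is a subset of `nm` of the countable family
`fun y : {y // ObA.y y ∈ N} => H.fn y.1`, `cov_ctbl`, `Cov.mono`, `isOmega_omB`), `Sub NG H` (`forall_mk`),
`Q ∈ NG` by (0), `Elem1 φ` for all `φ` by `elem_NG` and `le_elv`. Since `lam (SS H Q (NG H N))` is false
(`SS_le_WW`, `hS`), `TG (E hl) (val NG) (val Q)` holds: apply it to `Pn, le` (`Hyp`: `IsPo`).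
STEP 2: for `lam (io q)` there is `r ∈ Pn` with: if `lam (cP H Pn y0)` then `r ≤ H.fn y0`, and
`(∗)` for all `A ∈ NG`, `IsDense Pn le A`, some `x ∈ A`, `x ∈ NG` has `r ≤ x`. [If `cP y0`, take `p = H.fn y0`,
which is in `NG`; otherwise `p = ` any element of `Pn ∩ NG`, by (3) and `Pn ⊆ H`, `Pn ≠ ∅`.]
As `r ∈ Pn ⊆ H`, `exists_mem_iff` gives `lam (⨆ y1, H.wt y1 ⊓ b1 (H.fn y1))` where `b1` is the truth value
of this property of `r` (a `TD1` predicate). Hence `io q ≤ ⨆ ..` (`le_iff_ultra`), and `io_le_iSup` gives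
`r ≤ q` and `y1` with `io r` below the value for `y1`. So `ρ y1 y0 r` (`rv_iff`).
STEP 3: `LB`. Let `ObA.s S ∈ N`, `DOs S`, `L r' r`. Show
`io r' ≤ ⨆ (p, y) ∈ S, p, y in N, io p ⊓ cP H Pn y ⊓ apv le (H.fn y1) (H.fn y)` by `le_iff_ultra`: for
`lam (io r')`: `DE S ∈ NG` by (1), it is dense (`isDense_DE`), so by `(∗)` some `x ∈ DE S`, `x ∈ NG` has
`H.fn y1 ≤ x`; by `exists_mk_iff` for `NG` (truth values) `lam (⨆ y' in N, ...)`, and for every `y'` in `N` by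
(2) `io r' ⊓ [H.fn y' ∈ DE S] ⊓ [H.fn y1 ≤ H.fn y'] ≤ ⨆ (p, y) ∈ S in N, ...`. Then `io_le_iSup` gives
`r'' ≤ r'` and `(p, y)`, and one more extension gives `L r'' p` (`io r'' ≤ io p` means that densely below
`r''` there are elements below `p`: `mem_of_io_le` and the definition of `io`, `toD'`).
-/

universe u

open Cardinal Set HESR IM.BSet DCM
open IM (BSet)

namespace Pool.Agent.W_MP_315f31_lc

open BVM

variable {P : Type u} {L : P → P → Prop} [IsPre L]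


section

variable {H Q Pn le : BSet (DD L)} {a : DD L}

/-- The family for the parameter `S` and the index `y0`. -/
noncomputable def fam2 (H Pn : BSet (DD L)) (S : Set (P × H.ty)) (y0 : H.ty) (j : P × H.ty) : DD L :=
  open Classical in if j ∈ S then io j.1 ⊓ cP H Pn j.2 ⊓ beq (H.fn y0) (H.fn j.2) else ⊥

/-- All the families. -/
noncomputable def famT (H Q Pn : BSet (DD L)) (a : DD L) (n : ℕ) (l : List (ObA P H.ty))
    (j : P × H.ty) : DD L :=
  match n, l with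
  | 0, _ => H.wt j.2 ⊓ beq Q (H.fn j.2)
  | 1, [ObA.s S] => H.wt j.2 ⊓ beq (DE H Pn a S) (H.fn j.2)
  | 2, [ObA.s S, ObA.y y0] => fam2 H Pn S y0 j
  | 3, _ => cP H Pn j.2
  | _, _ => ⊥

/-- The properties of the models. -/
structure ModT (H Q Pn : BSet (DD L)) (a : DD L) (N : Set (ObA P H.ty)) : Prop where
  ctbl : N.Countable
  el : ∀ q, GenA L N q → ∀ (m : ℕ) (φ : Fml m), io q ≤ elv φ (NG H N) H
  f0 : ∀ q, GenA L N q → io q ≤ (⨆ y : H.ty, H.wt y ⊓ beq Q (H.fn y))ᶜ ⊔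
    ⨆ y : {y : H.ty // ObA.y y ∈ N}, H.wt y.1 ⊓ beq Q (H.fn y.1)
  f1 : ∀ q, GenA L N q → ∀ S, ObA.s S ∈ N →
    io q ≤ (⨆ y : H.ty, H.wt y ⊓ beq (DE H Pn a S) (H.fn y))ᶜ ⊔
    ⨆ y : {y : H.ty // ObA.y y ∈ N}, H.wt y.1 ⊓ beq (DE H Pn a S) (H.fn y.1)
  f2 : ∀ q, GenA L N q → ∀ S y0, ObA.s S ∈ N → ObA.y y0 ∈ N →
    io q ≤ (⨆ j : P × H.ty, fam2 H Pn S y0 j)ᶜ ⊔
    ⨆ j : {j : P × H.ty // ObA.p j.1 ∈ N ∧ ObA.y j.2 ∈ N}, fam2 H Pn S y0 j.1
  f3 : ∀ q, GenA L N q → io q ≤ (⨆ y : H.ty, cP H Pn y)ᶜ ⊔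
    ⨆ y : {y : H.ty // ObA.y y ∈ N}, cP H Pn y.1

theorem modT_club (H Q Pn : BSet (DD L)) (a : DD L) : IsClub {N | ModT H Q Pn a N} := by
  refine (IsClub.ctbl.inter ((elem_NG H).inter (gen_family (famT H Q Pn a)))).mono ?_
  rintro N ⟨h1, h2, h3⟩
  have key : ∀ q, GenA L N q → ∀ c : H.ty → DD L,
      io q ≤ (⨆ j : P × H.ty, c j.2)ᶜ ⊔
        (⨆ j : {j : P × H.ty // ObA.p j.1 ∈ N ∧ ObA.y j.2 ∈ N}, c j.1.2) →
      io q ≤ (⨆ y : H.ty, c y)ᶜ ⊔ ⨆ y : {y : H.ty // ObA.y y ∈ N}, c y.1 := by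
    intro q hq c h
    refine h.trans (sup_le_sup (compl_le_compl ?_) ?_)
    · exact iSup_le fun y => le_iSup (fun j : P × H.ty => c j.2) (q, y)
    · exact iSup_le fun j => le_iSup (fun y : {y : H.ty // ObA.y y ∈ N} => c y.1) ⟨j.1.2, j.2.2⟩
  refine ⟨h1, h2, ?_, ?_, ?_, ?_⟩
  · intro q hq
    exact key q hq (fun y => H.wt y ⊓ beq Q (H.fn y)) (h3 q hq 0 [] (by simp))
  · intro q hq S hS
    exact key q hq (fun y => H.wt y ⊓ beq (DE H Pn a S) (H.fn y))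
      (h3 q hq 1 [ObA.s S] (by simpa using hS))
  · intro q hq S y0 hS hy0
    exact h3 q hq 2 [ObA.s S, ObA.y y0] (by
      intro z hz
      simp only [List.mem_cons, List.not_mem_nil, or_false] at hz
      rcases hz with rfl | rfl
      · exact hS
      · exact hy0)
  · intro q hq
    exact key q hq (fun y => cP H Pn y) (h3 q hq 3 [] (by simp))


/-- Step 1: total properness for the model `N[G] ∩ H`. -/
theorem tg_NG (h : Hyp H Q Pn le a) (hS : a ⊓ SS H Q (WW H Q) = ⊥) {N : Set (ObA P H.ty)}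
    (hN : ModT H Q Pn a N) {q : P} (hgen : GenA L N q) (hqa : io q ≤ a) {lam : DD L → Prop}
    {hl : IsUF lam} (hlam : lam (io q)) : TG (E hl) (val hl (NG H N)) (val hl Q) := by
  by_contra hT
  have ha : lam a := hl.mono hqa hlam
  obtain ⟨-, htr, hQH, -⟩ := h lam hl ha
  have h1 : IsCtb (E hl) (val hl (NG H N)) := by
    refine ⟨val hl omB, isOmega_omB, ?_⟩
    have hc : Countable {y : H.ty // ObA.y (P := P) y ∈ N} := by
      have h2 : ({y : H.ty | ObA.y (P := P) y ∈ N}).Countable :=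
        hN.ctbl.preimage fun y y' hy => ObA.y.inj hy
      exact h2.to_subtype
    refine (cov_ctbl (fun y : {y : H.ty // ObA.y (P := P) y ∈ N} => H.fn y.1) hl).mono ?_
    refine forall_mk (P := fun lam hl z => E hl z (val hl
      (nm fun y : {y : H.ty // ObA.y (P := P) y ∈ N} => H.fn y.1)))
      (TD.mem (Tm.var 0) (Tm.const _)) (a := ⊤) ?_ hl.top
    intro i lam hl _ _
    exact E_nm_of (f := fun y : {y : H.ty // ObA.y (P := P) y ∈ N} => H.fn y.1) i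
  have h2 : Sub (E hl) (val hl (NG H N)) (val hl H) := by
    refine forall_mk (P := fun lam hl z => E hl z (val hl H)) (TD.mem (Tm.var 0) (Tm.const _))
      (a := ⊤) ?_ hl.top
    intro i lam hl _ hw
    exact E_val.2 (hl.mono (wt_le_bmem H i.1) hw)
  have h3 : E hl (val hl Q) (val hl (NG H N)) := by
    rcases hl.sup_iff.1 (hl.mono (hN.f0 q hgen) hlam) with h4 | h4
    · exact absurd (E_val.1 hQH) (hl.compl_iff.1 h4)
    · exact E_val.2 h4
  have h4 : lam (bdv H Q (NG H N)) := bdv_iff.1 ⟨h1, h2, h3, hT⟩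
  have h5 : lam (⨅ (m : ℕ) (φ : Fml m), elv φ (NG H N) H) :=
    hl.mono (le_iInf₂ fun m φ => hN.el q hgen m φ) hlam
  have h6 : lam (a ⊓ SS H Q (WW H Q)) := hl.inf ha (hl.mono (SS_le_WW H Q (NG H N)) (hl.inf h4 h5))
  rw [hS] at h6
  exact hl.bot h6

/-- The property of the lower bound. -/
def LBp (H Pn le : BSet (DD L)) (N : Set (ObA P H.ty)) (y0 : H.ty) (lam : DD L → Prop)
    (hl : IsUF lam) (z : X hl) : Prop :=
  E hl z (val hl Pn) ∧ (lam (cP H Pn y0) → App (E hl) (val hl le) z (val hl (H.fn y0))) ∧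
    ∀ A, E hl A (val hl (NG H N)) → IsDense (E hl) (val hl Pn) (val hl le) A →
      ∃ x, E hl x A ∧ E hl x (val hl (NG H N)) ∧ App (E hl) (val hl le) z x

theorem td_LBp (H Pn le : BSet (DD L)) (N : Set (ObA P H.ty)) (y0 : H.ty) :
    TD1 (D := DD L) fun lam hl z => LBp H Pn le N y0 lam hl z := by
  refine TD.and (TD.mem (Tm.var 0) (Tm.const _)) (TD.and (TD.imp (TD.lamC _)
    (TD.app (Tm.const _) (Tm.var 0) (Tm.const _))) ?_)
  refine TD.all (P := fun lam hl A v => E hl A (val hl (NG H N)) →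
    IsDense (E hl) (val hl Pn) (val hl le) A →
      ∃ x, E hl x A ∧ E hl x (val hl (NG H N)) ∧ App (E hl) (val hl le) (v 0) x) ?_
  refine TD.imp (TD.mem (Tm.var 0) (Tm.const _)) (TD.imp
    (TD.isDense (Tm.const _) (Tm.const _) (Tm.var 0)) ?_)
  exact TD.ex (P := fun lam hl x v => E hl x (v 0) ∧ E hl x (val hl (NG H N)) ∧
    App (E hl) (val hl le) (v 1) x) (TD.and (TD.mem (Tm.var 0) (Tm.var 1))
      (TD.and (TD.mem (Tm.var 0) (Tm.const _)) (TD.app (Tm.const _) (Tm.var 2) (Tm.var 0))))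

/-- Step 2: the lower bound has an index. -/
theorem exists_LBp (h : Hyp H Q Pn le a) (hS : a ⊓ SS H Q (WW H Q) = ⊥) {N : Set (ObA P H.ty)}
    (hN : ModT H Q Pn a N) {q : P} (hgen : GenA L N q) (hqa : io q ≤ a) {y0 : H.ty}
    (hy0 : ObA.y y0 ∈ N) :
    io q ≤ ⨆ y : H.ty, H.wt y ⊓ TD.b1 (td_LBp H Pn le N y0) (H.fn y) := by
  rw [le_iff_ultra]
  intro lam hl hlam
  have ha : lam a := hl.mono hqa hlam
  rw [← exists_mem_iff (td_LBp H Pn le N y0) (hl := hl)]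
  obtain ⟨hpo, htr, hQH, -⟩ := h lam hl ha
  have hTG := tg_NG (hl := hl) h hS hN hgen hqa hlam
  have hp : ∃ p, E hl p (val hl Pn) ∧ E hl p (val hl (NG H N)) ∧
      (lam (cP H Pn y0) → p = val hl (H.fn y0)) := by
    by_cases hc : lam (cP H Pn y0)
    · have hc' := (cP_iff (hl := hl)).1 hc
      exact ⟨val hl (H.fn y0), hc'.2,
        E_mk_of (f := fun y : {y : H.ty // ObA.y (P := P) y ∈ N} => H.fn y.1) ⟨y0, hy0⟩ hc'.1,
        fun _ => rfl⟩
    · obtain ⟨x, hx⟩ := hpo.2.1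
      have hT : TD1 (D := DD L) fun lam hl z => E hl z (val hl Pn) := TD.mem (Tm.var 0) (Tm.const _)
      have hb : ∀ y : H.ty, H.wt y ⊓ TD.b1 hT (H.fn y) = cP H Pn y := by
        intro y
        rw [cP]
        congr 1
        rw [eq_iff_ultra]
        intro lam hl
        rw [← TD.b1_iff hT (hl := hl), E_val]
      have h1 := (exists_mem_iff hT (hl := hl) (x := H)).1 ⟨x, h.mem_H ha hx, hx⟩
      simp only [hb] at h1
      rcases hl.sup_iff.1 (hl.mono (hN.f3 q hgen) hlam) with h4 | h4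
      · exact absurd h1 (hl.compl_iff.1 h4)
      · have h5 : lam (⨆ y : {y : H.ty // ObA.y (P := P) y ∈ N}, H.wt y.1 ⊓ TD.b1 hT (H.fn y.1)) := by
          simp only [hb]
          exact h4
        rw [← exists_mk_iff hT (hl := hl)] at h5
        obtain ⟨p, hp1, hp2⟩ := h5
        exact ⟨p, hp2, hp1, fun h => absurd h hc⟩
  obtain ⟨p, hp1, hp2, hp3⟩ := hp
  obtain ⟨r, hr1, hr2, hr3⟩ := hTG _ _ hpo.1 p hp1 hp2
  refine ⟨r, h.mem_H ha hr1, hr1, ?_, hr3⟩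
  intro hc
  rw [← hp3 hc]
  exact hr2

/-- Step 3: one dense set. -/
theorem meet_LBp (h : Hyp H Q Pn le a) {N : Set (ObA P H.ty)} (hN : ModT H Q Pn a N) {q : P}
    (hgen : GenA L N q) (hqa : io q ≤ a) {y0 y1 : H.ty} {r : P} (hr : L r q)
    (hr1 : io r ≤ H.wt y1 ⊓ TD.b1 (td_LBp H Pn le N y0) (H.fn y1)) {S : Set (P × H.ty)}
    (hSN : ObA.s S ∈ N) (hSd : DOs L (rho H Pn le a) S) {r' : P} (hr' : L r' r) :
    io r' ≤ ⨆ j : {j : P × H.ty // ObA.p j.1 ∈ N ∧ ObA.y j.2 ∈ N ∧ j ∈ S},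
      io j.1.1 ⊓ rv H Pn le a y1 j.1.2 := by
  have hr'q : io r' ≤ (io q : DD L) := io_mono (IsPre.trans _ _ _ hr' hr)
  -- an index in the model
  have hT : TD1 (D := DD L) fun lam hl z => E hl z (val hl (DE H Pn a S)) ∧
      App (E hl) (val hl le) (val hl (H.fn y1)) z :=
    TD.and (TD.mem (Tm.var 0) (Tm.const _)) (TD.app (Tm.const _) (Tm.const _) (Tm.var 0))
  have key : io r' ≤ ⨆ y : {y : H.ty // ObA.y (P := P) y ∈ N}, H.wt y.1 ⊓ TD.b1 hT (H.fn y.1) := by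
    rw [le_iff_ultra]
    intro lam hl hlam
    have hlq : lam (io q) := hl.mono hr'q hlam
    have ha : lam a := hl.mono hqa hlq
    have hd := isDense_DE h hSd (hl := hl) ha
    have hDH : E hl (val hl (DE H Pn a S)) (val hl H) := (h lam hl ha).2.2.2 _ hd.1
    have hDN : E hl (val hl (DE H Pn a S)) (val hl (NG H N)) := by
      rcases hl.sup_iff.1 (hl.mono (hN.f1 q hgen S hSN) hlq) with h4 | h4
      · exact absurd (E_val.1 hDH) (hl.compl_iff.1 h4)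
      · exact E_val.2 h4
    obtain ⟨-, h2⟩ := hl.inf_iff.1 (hl.mono ((io_mono hr').trans hr1) hlam)
    obtain ⟨-, -, h3⟩ := (TD.b1_iff (td_LBp H Pn le N y0) (hl := hl)).2 h2
    obtain ⟨x, hx1, hx2, hx3⟩ := h3 _ hDN hd
    exact (exists_mk_iff hT (hl := hl)).1 ⟨x, hx2, hx1, hx3⟩
  refine (le_inf le_rfl key).trans ?_
  rw [inf_iSup_eq]
  refine iSup_le fun y' => ?_
  -- the elements of `S`
  have h2 : io r' ⊓ (H.wt y'.1 ⊓ TD.b1 hT (H.fn y'.1)) ≤
      ⨆ j : {j : P × H.ty // ObA.p j.1 ∈ N ∧ ObA.y j.2 ∈ N}, fam2 H Pn S y'.1 j.1 := by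
    rw [le_iff_ultra]
    intro lam hl hlam
    obtain ⟨h3, h4⟩ := hl.inf_iff.1 hlam
    obtain ⟨h5, h6⟩ := hl.inf_iff.1 h4
    obtain ⟨h7, h8⟩ := (TD.b1_iff hT (hl := hl)).2 h6
    have h9 : lam (⨆ j : P × H.ty, fam2 H Pn S y'.1 j) := by
      have h10 := (E_mk_iff (hl := hl)).1 h7
      refine hl.mono ?_ h10
      refine iSup_le fun y => ?_
      rw [inf_iSup_eq, iSup_inf_eq]
      refine iSup_le fun p => ?_
      refine le_iSup_of_le (p.1, y) ?_
      rw [fam2, if_pos p.2]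
      refine le_inf (le_inf ?_ ?_) ?_
      · exact inf_le_left.trans inf_le_right
      · exact inf_le_left.trans (inf_le_left.trans inf_le_right)
      · exact inf_le_right
    rcases hl.sup_iff.1 (hl.mono (hN.f2 q hgen S y'.1 hSN y'.2) (hl.mono hr'q h3)) with h4 | h4
    · exact absurd h9 (hl.compl_iff.1 h4)
    · exact h4
  refine (le_inf le_rfl h2).trans ?_
  rw [inf_iSup_eq]
  refine iSup_le fun j => ?_
  by_cases hj : j.1 ∈ S
  · refine le_iSup_of_le ⟨j.1, j.2.1, j.2.2, hj⟩ ?_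
    rw [fam2, if_pos hj, le_iff_ultra]
    intro lam hl hlam
    obtain ⟨h3, h4⟩ := hl.inf_iff.1 hlam
    obtain ⟨h5, h6⟩ := hl.inf_iff.1 h3
    obtain ⟨h7, h8⟩ := hl.inf_iff.1 h6
    obtain ⟨h9, h10⟩ := (TD.b1_iff hT (hl := hl)).2 h8
    obtain ⟨h11, h12⟩ := hl.inf_iff.1 h4
    obtain ⟨h13, h14⟩ := hl.inf_iff.1 h11
    have ha : lam a := hl.mono (hr'q.trans hqa) h5
    obtain ⟨h15, h16⟩ := hl.inf_iff.1 (hl.mono ((io_mono hr').trans hr1) h5)
    have h17 := (TD.b1_iff (td_LBp H Pn le N y0) (hl := hl)).2 h16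
    refine hl.inf h13 ((rv_iff hl ha).2 fun _ => ⟨cP_iff.2 ⟨h15, h17.1⟩, ?_⟩)
    rw [← val_eq.2 h12]
    exact h10
  · rw [fam2, if_neg hj, inf_bot_eq]
    exact bot_le

end

/-- Total properness of the poset: the main step. -/
theorem tpn_rho {H Q Pn le : BSet (DD L)} {a : DD L} (h : Hyp H Q Pn le a)
    (hS : a ⊓ SS H Q (WW H Q) = ⊥) {p0 : P} (hp0 : io p0 ≤ a) : TPN L (rho H Pn le a) p0 := by
  refine (modT_club H Q Pn a).mono ?_
  intro N hN q hq hgen y0 hy0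
  have hqa : io q ≤ a := (io_mono hq).trans hp0
  obtain ⟨r, hr, y1, hr1⟩ := io_le_iSup.1 (exists_LBp h hS hN hgen hqa hy0) q (IsPre.refl q)
  refine ⟨r, y1, hr, ?_, ?_⟩
  · change io r ≤ rv H Pn le a y1 y0
    rw [le_iff_ultra]
    intro lam hl hlam
    by_cases ha : lam a
    · obtain ⟨h2, h3⟩ := hl.inf_iff.1 (hl.mono hr1 hlam)
      have h4 := (TD.b1_iff (td_LBp H Pn le N y0) (hl := hl)).2 h3
      exact (rv_iff hl ha).2 fun hc => ⟨cP_iff.2 ⟨h2, h4.1⟩, h4.2.1 hc⟩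
    · exact rv_of_not hl ha
  · intro S hSN hSd r' hr'
    obtain ⟨r1, hr1', j, hj⟩ := io_le_iSup.1 (meet_LBp h hN hgen hqa hr hr1 hSN hSd hr') r'
      (IsPre.refl r')
    obtain ⟨r2, hr2, hr2'⟩ := mem_of_io_le (hj.trans inf_le_left) r1 (IsPre.refl r1)
    exact ⟨r2, IsPre.trans _ _ _ hr2 hr1', j.1.1, j.1.2, j.2.2.2, j.2.1, j.2.2.1, hr2',
      (io_mono hr2).trans (hj.trans inf_le_right)⟩

end Pool.Agent.W_MP_315f31_lc
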