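import Pool.Agent.W_315f31_h40.FA2T

/-!
# MP_315f31_lc : the forcing axiom in the model

PROOFS. `dns_Dn`, first part: from `io q ≤ aᶜ ⊔ DnP w y` and `io q ≤ rv y' y` conclude `io q ≤ aᶜ ⊔ DnP w y'`
(in each quotient with `lam a`: `cP y`, so `rv_iff` gives `cP y'` and `H.fn y' ≤ H.fn y`; transitivity of
`le`). Second part: for `io p ≤ a` show `io p ≤ ⨆ y', rv y' y ⊓ DnP w y'` by `le_iff_ultra`: in a quotient
with `lam a` let `A = f0 (w)` (exists, `chk w ∈ chkT Wo`, `E_chkT`). If `cP y`: if `A ∈ F` there is `z ∈ A` with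
`z ≤ H.fn y` (`IsDense`), if `A ∉ F` take `z = H.fn y`. If not `cP y`: take `z` in `Pn` (nonempty), and in
`A` if `A ∈ F`. In all cases `z ∈ Pn ⊆ H` (`Hyp.mem_H`) and `exists_mem_iff` for `H` turns this into
`lam (⨆ y', H.wt y' ⊓ ..)`. Then `io_le_iSup`.
`filter_of_filt`: let `gv y = toD' (G y) hG.mono : DD L`, `gB = mk H.ty H.fn fun y => cP H Pn y ⊓ gv y`.
For `lam (io q)` (hence `lam a`): (i) for every `w` there are `y ∈ gB`, and if `f0 w ∈ F` then `z ∈ f0 w` with
`y ≤ z` (`hG.meet`: `io q ≤ ⨆ y, gv y ⊓ (aᶜ ⊔ DnP w y)`); (ii) `gB` is directed: for all `y y'`: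
`io q ⊓ gv y ⊓ gv y' ⊓ cP y ⊓ cP y' ≤ ⨆ z, (cP z ⊓ gv z) ⊓ apv (H.fn z) (H.fn y) ⊓ apv (H.fn z) (H.fn y')` by
`hG.dir`, and `forall_mk` twice. Let `g = {x ∈ Pn | ∃ y ∈ gB, y ≤ x}` (`IsZFC.sep1` with `Def`, or `hZ.sep`).
`fa_main`: choose `p0` with `io p0 ≤ a` (`exists_io_le`); `Nonempty H.ty`: `Q ∈ H` in some quotient with
`lam a` (`exists_isUF`), and `bmem Q H` is a supremum over `H.ty`. Reindex the dense sets: `#Wo = #W1`
(`mk_Wo`, `mk_out`), `e : W1 ≃ Wo`; `DnsW` and `Filt` transfer along `e`. Use `pord_rho`, `tpn_rho`, `dns_Dn`,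
`hfa`, `filter_of_filt`, and `io q ≤ io p0 ≤ a`.
-/

universe u

open Cardinal Set HESR IM.BSet DCM
open IM (BSet)

namespace Pool.Agent.W_MP_315f31_lc

open BVM

variable {P : Type u} {L : P → P → Prop} [IsPre L]

/-- The truth value of: `x` is an element of the poset with an upper bound in the `w`-th dense set. -/
def DnP (H Pn le F f0 : BSet (DD L)) (w : Wo.{u}) (x : H.ty) (lam : DD L → Prop) (hl : IsUF lam) :
    Prop :=
  lam (cP H Pn x) ∧ ∀ A, App (E hl) (val hl f0) (val hl (chk w)) A → E hl A (val hl F) →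
    ∃ z, E hl z A ∧ App (E hl) (val hl le) (val hl (H.fn x)) z

theorem td_DnP (H Pn le F f0 : BSet (DD L)) (w : Wo.{u}) (x : H.ty) :
    TD0 (D := DD L) fun lam hl => DnP H Pn le F f0 w x lam hl := by
  refine TD.and (TD.lamC _) ?_
  refine TD.all (P := fun lam hl A _ => App (E hl) (val hl f0) (val hl (chk w)) A →
    E hl A (val hl F) → ∃ z, E hl z A ∧ App (E hl) (val hl le) (val hl (H.fn x)) z) ?_
  refine TD.imp (TD.app (Tm.const _) (Tm.const _) (Tm.var 0))
    (TD.imp (TD.mem (Tm.var 0) (Tm.const _)) ?_)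
  exact TD.ex (P := fun lam hl z v => E hl z (v 0) ∧ App (E hl) (val hl le) (val hl (H.fn x)) z)
    (TD.and (TD.mem (Tm.var 0) (Tm.var 1)) (TD.app (Tm.const _) (Tm.const _) (Tm.var 0)))

/-- The names of the dense sets in forcing form. -/
noncomputable def Dn (H Pn le F f0 : BSet (DD L)) (a : DD L) (w : Wo.{u}) (x : H.ty) (p : P) : Prop :=
  io p ≤ aᶜ ⊔ TD.b0 (td_DnP H Pn le F f0 w x)

/-- The hypotheses on the dense sets. -/
def HypD (Pn le F f0 : BSet (DD L)) (a : DD L) : Prop :=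
  ∀ (lam : DD L → Prop) (hl : IsUF lam), lam a → IsFun (E hl) (val hl f0) (val hl (chkT Wo.{u})) ∧
    (∀ A, E hl A (val hl F) → ∃ x, App (E hl) (val hl f0) x A) ∧
    ∀ A, E hl A (val hl F) → IsDense (E hl) (val hl Pn) (val hl le) A

theorem dns_Dn {H Q Pn le F f0 : BSet (DD L)} {a : DD L} (h : Hyp H Q Pn le a)
    (hD : HypD Pn le F f0 a) {p0 : P} (hp0 : io p0 ≤ a) :
    DnsW L (rho H Pn le a) (Dn H Pn le F f0 a) p0 := by
  constructor
  · intro w y p y' q hy hqp hρ
    change io q ≤ aᶜ ⊔ TD.b0 (td_DnP H Pn le F f0 w y')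
    rw [le_iff_ultra]
    intro lam hl hq
    by_cases ha : lam a
    · refine hl.mono le_sup_right ?_
      have h1 : lam (TD.b0 (td_DnP H Pn le F f0 w y)) := by
        have h2 := hl.mono ((io_mono hqp).trans hy) hq
        rcases hl.sup_iff.1 h2 with h3 | h3
        · exact absurd ha (hl.compl_iff.1 h3)
        · exact h3
      have h2 := (TD.b0_iff (td_DnP H Pn le F f0 w y) (hl := hl)).2 h1
      have h3 := (rv_iff hl ha).1 (hl.mono hρ hq) h2.1
      refine (TD.b0_iff (td_DnP H Pn le F f0 w y') (hl := hl)).1 ⟨h3.1, ?_⟩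
      intro A hA hAF
      obtain ⟨z, hz, hz'⟩ := h2.2 A hA hAF
      exact ⟨z, hz, (h lam hl ha).1.2.2.2.2 _ _ _ h3.2 hz'⟩
    · exact hl.mono le_sup_left (hl.compl_iff.2 ha)
  · intro w p hp y
    have hT : TD1 (D := DD L) fun lam hl z => E hl z (val hl Pn) ∧
        (lam (cP H Pn y) → App (E hl) (val hl le) z (val hl (H.fn y))) ∧
        ∀ A, App (E hl) (val hl f0) (val hl (chk w)) A → E hl A (val hl F) →
          ∃ z', E hl z' A ∧ App (E hl) (val hl le) z z' := by
      refine TD.and (TD.mem (Tm.var 0) (Tm.const _)) (TD.and (TD.imp (TD.lamC _)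
        (TD.app (Tm.const _) (Tm.var 0) (Tm.const _))) ?_)
      refine TD.all (P := fun lam hl A v => App (E hl) (val hl f0) (val hl (chk w)) A →
        E hl A (val hl F) → ∃ z', E hl z' A ∧ App (E hl) (val hl le) (v 0) z') ?_
      refine TD.imp (TD.app (Tm.const _) (Tm.const _) (Tm.var 0))
        (TD.imp (TD.mem (Tm.var 0) (Tm.const _)) ?_)
      exact TD.ex (P := fun lam hl z' v => E hl z' (v 0) ∧ App (E hl) (val hl le) (v 1) z')
        (TD.and (TD.mem (Tm.var 0) (Tm.var 1)) (TD.app (Tm.const _) (Tm.var 2) (Tm.var 0)))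
    have key : (io p : DD L) ≤ ⨆ i : H.ty, rv H Pn le a i y ⊓
        (aᶜ ⊔ TD.b0 (td_DnP H Pn le F f0 w i)) := by
      rw [le_iff_ultra]
      intro lam hl hlp
      have ha : lam a := hl.mono ((io_mono hp).trans hp0) hlp
      obtain ⟨hpo, -, -, -⟩ := h lam hl ha
      obtain ⟨-, ⟨x0, hx0⟩, -, hrefl, htrans⟩ := hpo
      obtain ⟨hf, -, hden⟩ := hD lam hl ha
      obtain ⟨A, hA, hAu⟩ := hf.2 _ (E_chkT w)
      have hz : ∃ z, E hl z (val hl Pn) ∧
          (lam (cP H Pn y) → App (E hl) (val hl le) z (val hl (H.fn y))) ∧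
          (E hl A (val hl F) → ∃ z', E hl z' A ∧ App (E hl) (val hl le) z z') := by
        by_cases hy : lam (cP H Pn y)
        · have hy' := (cP_iff (hl := hl)).1 hy
          by_cases hAF : E hl A (val hl F)
          · obtain ⟨z, hz, hz'⟩ := (hden A hAF).2 _ hy'.2
            have hzP := (hden A hAF).1 z hz
            exact ⟨z, hzP, fun _ => hz', fun _ => ⟨z, hz, hrefl z hzP⟩⟩
          · exact ⟨_, hy'.2, fun _ => hrefl _ hy'.2, fun h => absurd h hAF⟩
        · by_cases hAF : E hl A (val hl F)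
          · obtain ⟨z, hz, hz'⟩ := (hden A hAF).2 _ hx0
            have hzP := (hden A hAF).1 z hz
            exact ⟨z, hzP, fun h => absurd h hy, fun _ => ⟨z, hz, hrefl z hzP⟩⟩
          · exact ⟨_, hx0, fun h => absurd h hy, fun h => absurd h hAF⟩
      obtain ⟨z, hz1, hz2, hz3⟩ := hz
      have h1 := (exists_mem_iff hT (hl := hl) (x := H)).1 ⟨z, h.mem_H ha hz1, hz1, hz2,
        fun A' hA' hAF => by
          have he : A' = A := hAu _ hA'
          subst he
          exact hz3 hAF⟩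
      refine hl.mono (iSup_mono fun i => ?_) h1
      rw [le_iff_ultra]
      intro lam hl hi
      obtain ⟨hi1, hi2⟩ := hl.inf_iff.1 hi
      obtain ⟨hi3, hi4, hi5⟩ := (TD.b1_iff hT (hl := hl)).2 hi2
      have hci : lam (cP H Pn i) := (cP_iff (hl := hl)).2 ⟨hi1, hi3⟩
      refine hl.inf ?_ ?_
      · by_cases ha : lam a
        · exact (rv_iff hl ha).2 fun h => ⟨hci, hi4 h⟩
        · exact hl.mono le_sup_left (hl.compl_iff.2 ha)
      · exact hl.mono le_sup_right ((TD.b0_iff (td_DnP H Pn le F f0 w i) (hl := hl)).1 ⟨hci, hi5⟩)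
    obtain ⟨q, hq, i, hi⟩ := io_le_iSup.1 key p (IsPre.refl p)
    exact ⟨q, i, hq, hi.trans inf_le_left, hi.trans inf_le_right⟩

/-- A filter in the sense of the forcing relation gives a filter in the quotients. -/
theorem filter_of_filt {H Q Pn le F f0 : BSet (DD L)} {a : DD L} (h : Hyp H Q Pn le a)
    (hD : HypD Pn le F f0 a) {q : P} (hq : io q ≤ a) {G : H.ty → P → Prop}
    (hG : Filt L (rho H Pn le a) (Dn H Pn le F f0 a) q G) {lam : DD L → Prop} {hl : IsUF lam}
    (hlam : lam (io q)) :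
    ∃ g, IsFilt (E hl) (val hl Pn) (val hl le) g ∧
      ∀ A, E hl A (val hl F) → ∃ x, E hl x g ∧ E hl x A := by
  let gv : H.ty → DD L := fun y => toD' (G y) fun p r => hG.mono y p r
  have hgv : ∀ (y : H.ty) (p : P), G y p → io p ≤ gv y := fun y p hp =>
    io_le_of_mem (mem_toD' (fun p r => hG.mono y p r) hp)
  have hgv' : ∀ (y : H.ty) (p : P), io p ≤ gv y → ∀ p', L p' p → ∃ r, L r p' ∧ G y r :=
    fun y p hp p' hp' => mem_of_io_le hp p' hp'
  let gB : BSet (DD L) := mk H.ty H.fn fun y => cP H Pn y ⊓ gv y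
  have ha : lam a := hl.mono hq hlam
  -- `gB` is a subset of the poset
  have h0 : ∀ y, E hl y (val hl gB) → E hl y (val hl Pn) := by
    refine forall_mk (P := fun lam hl y => E hl y (val hl Pn)) (TD.mem (Tm.var 0) (Tm.const _))
      (a := ⊤) ?_ hl.top
    intro i lam hl _ hi
    exact ((cP_iff (hl := hl)).1 (hl.mono inf_le_left hi)).2
  -- `gB` meets the dense sets
  have h1 : ∀ w, E hl w (val hl (chkT Wo.{u})) → ∃ y, E hl y (val hl gB) ∧
      ∀ A, App (E hl) (val hl f0) w A → E hl A (val hl F) →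
        ∃ z, E hl z A ∧ App (E hl) (val hl le) y z := by
    refine forall_chkT (P := fun lam hl w => ∃ y, E hl y (val hl gB) ∧
      ∀ A, App (E hl) (val hl f0) w A → E hl A (val hl F) →
        ∃ z, E hl z A ∧ App (E hl) (val hl le) y z) ?_ (a := io q) ?_ hlam
    · refine TD.ex (P := fun lam hl y v => E hl y (val hl gB) ∧
        ∀ A, App (E hl) (val hl f0) (v 0) A → E hl A (val hl F) →
          ∃ z, E hl z A ∧ App (E hl) (val hl le) y z) ?_
      refine TD.and (TD.mem (Tm.var 0) (Tm.const _)) ?_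
      refine TD.all (P := fun lam hl A v => App (E hl) (val hl f0) (v 1) A → E hl A (val hl F) →
          ∃ z, E hl z A ∧ App (E hl) (val hl le) (v 0) z) ?_
      refine TD.imp (TD.app (Tm.const _) (Tm.var 2) (Tm.var 0))
        (TD.imp (TD.mem (Tm.var 0) (Tm.const _)) ?_)
      exact TD.ex (P := fun lam hl z v => E hl z (v 0) ∧ App (E hl) (val hl le) (v 1) z)
        (TD.and (TD.mem (Tm.var 0) (Tm.var 1)) (TD.app (Tm.const _) (Tm.var 2) (Tm.var 0)))
    · intro w lam hl hlam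
      have hT : TD1 (D := DD L) fun lam hl y =>
          ∀ A, App (E hl) (val hl f0) (val hl (chk w)) A → E hl A (val hl F) →
            ∃ z, E hl z A ∧ App (E hl) (val hl le) y z := by
        refine TD.all (P := fun lam hl A v => App (E hl) (val hl f0) (val hl (chk w)) A →
          E hl A (val hl F) → ∃ z, E hl z A ∧ App (E hl) (val hl le) (v 0) z) ?_
        refine TD.imp (TD.app (Tm.const _) (Tm.const _) (Tm.var 0))
          (TD.imp (TD.mem (Tm.var 0) (Tm.const _)) ?_)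
        exact TD.ex (P := fun lam hl z v => E hl z (v 0) ∧ App (E hl) (val hl le) (v 1) z)
          (TD.and (TD.mem (Tm.var 0) (Tm.var 1)) (TD.app (Tm.const _) (Tm.var 2) (Tm.var 0)))
      rw [exists_mk_iff hT]
      refine hl.mono (io_le_iSup.2 ?_) hlam
      intro q' hq'
      obtain ⟨r, y, hr, hGr, hDr⟩ := hG.meet w q' hq'
      refine ⟨r, hr, y, ?_⟩
      rw [le_iff_ultra]
      intro lam hl hlr
      have har : lam a := hl.mono ((io_mono (IsPre.trans _ _ _ hr hq')).trans hq) hlr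
      have h2 := hl.mono hDr hlr
      rcases hl.sup_iff.1 h2 with h3 | h3
      · exact absurd har (hl.compl_iff.1 h3)
      · have h4 := (TD.b0_iff (td_DnP H Pn le F f0 w y) (hl := hl)).2 h3
        refine hl.inf (hl.inf h4.1 (hl.mono (hgv y r hGr) hlr)) ?_
        exact (TD.b1_iff hT (hl := hl)).1 h4.2
  -- `gB` is directed
  have h2 : ∀ y, E hl y (val hl gB) → ∀ y', E hl y' (val hl gB) → ∃ z, E hl z (val hl gB) ∧
      App (E hl) (val hl le) z y ∧ App (E hl) (val hl le) z y' := by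
    refine forall_mk (P := fun lam hl y => ∀ y', E hl y' (val hl gB) → ∃ z, E hl z (val hl gB) ∧
      App (E hl) (val hl le) z y ∧ App (E hl) (val hl le) z y') ?_ (a := io q) ?_ hlam
    · refine TD.all (P := fun lam hl y' v => E hl y' (val hl gB) → ∃ z, E hl z (val hl gB) ∧
        App (E hl) (val hl le) z (v 0) ∧ App (E hl) (val hl le) z y') ?_
      refine TD.imp (TD.mem (Tm.var 0) (Tm.const _)) ?_
      exact TD.ex (P := fun lam hl z v => E hl z (val hl gB) ∧
        App (E hl) (val hl le) z (v 1) ∧ App (E hl) (val hl le) z (v 0))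
        (TD.and (TD.mem (Tm.var 0) (Tm.const _)) (TD.and (TD.app (Tm.const _) (Tm.var 0) (Tm.var 2))
          (TD.app (Tm.const _) (Tm.var 0) (Tm.var 1))))
    · intro i lam hl hlam hi
      refine forall_mk (P := fun lam hl y' => ∃ z, E hl z (val hl gB) ∧
        App (E hl) (val hl le) z (val hl (H.fn i)) ∧ App (E hl) (val hl le) z y') ?_
        (a := io q ⊓ (cP H Pn i ⊓ gv i)) ?_ (hl.inf hlam hi)
      · exact TD.ex (P := fun lam hl z v => E hl z (val hl gB) ∧
          App (E hl) (val hl le) z (val hl (H.fn i)) ∧ App (E hl) (val hl le) z (v 0))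
          (TD.and (TD.mem (Tm.var 0) (Tm.const _)) (TD.and
            (TD.app (Tm.const _) (Tm.var 0) (Tm.const _))
            (TD.app (Tm.const _) (Tm.var 0) (Tm.var 1))))
      · intro j lam hl hlam hj
        have hT : TD1 (D := DD L) fun lam hl z =>
            App (E hl) (val hl le) z (val hl (H.fn i)) ∧
              App (E hl) (val hl le) z (val hl (H.fn j)) :=
          TD.and (TD.app (Tm.const _) (Tm.var 0) (Tm.const _))
            (TD.app (Tm.const _) (Tm.var 0) (Tm.const _))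
        rw [exists_mk_iff hT]
        refine hl.mono ?_ (hl.inf hlam hj)
        rw [le_iff_io]
        intro p hp
        rw [io_le_iSup]
        intro p' hp'
        have hpq : io p ≤ (io q : DD L) := hp.trans (inf_le_left.trans inf_le_left)
        have hpi : io p ≤ cP H Pn i := hp.trans (inf_le_left.trans (inf_le_right.trans inf_le_left))
        have hpi' : io p ≤ gv i := hp.trans (inf_le_left.trans (inf_le_right.trans inf_le_right))
        have hpj : io p ≤ cP H Pn j := hp.trans (inf_le_right.trans inf_le_left)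
        have hpj' : io p ≤ gv j := hp.trans (inf_le_right.trans inf_le_right)
        obtain ⟨r1, hr1, hr1'⟩ := mem_of_io_le hpq p' hp'
        obtain ⟨r2, hr2, hG2⟩ := hgv' i p hpi' r1 (IsPre.trans _ _ _ hr1 hp')
        obtain ⟨r3, hr3, hG3⟩ := hgv' j p hpj' r2
          (IsPre.trans _ _ _ hr2 (IsPre.trans _ _ _ hr1 hp'))
        have h3q : L r3 q := IsPre.trans _ _ _ hr3 (IsPre.trans _ _ _ hr2 hr1')
        have h3p : L r3 p' := IsPre.trans _ _ _ hr3 (IsPre.trans _ _ _ hr2 hr1)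
        obtain ⟨r, z, hr, hGz, hzi, hzj⟩ := hG.dir i j r3 h3q (hG.mono i r2 r3 hG2 hr3) hG3
        refine ⟨r, IsPre.trans _ _ _ hr h3p, z, ?_⟩
        have hrp : L r p := IsPre.trans _ _ _ hr (IsPre.trans _ _ _ h3p hp')
        rw [le_iff_ultra]
        intro lam hl hlr
        have har : lam a := hl.mono ((io_mono (IsPre.trans _ _ _ hr h3q)).trans hq) hlr
        have e1 := (rv_iff hl har).1 (hl.mono hzi hlr) (hl.mono ((io_mono hrp).trans hpi) hlr)
        have e2 := (rv_iff hl har).1 (hl.mono hzj hlr) (hl.mono ((io_mono hrp).trans hpj) hlr)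
        refine hl.inf (hl.inf e1.1 (hl.mono (hgv z r hGz) hlr)) ?_
        exact (TD.b1_iff hT (hl := hl)).1 ⟨e1.2, e2.2⟩
  obtain ⟨hpo, -, -, -⟩ := h lam hl ha
  obtain ⟨-, -, hR, hrefl, htrans⟩ := hpo
  obtain ⟨hf, hcov, hden⟩ := hD lam hl ha
  have hdef : Def1 (E hl) fun x => ∃ y, E hl y (val hl gB) ∧ App (E hl) (val hl le) y x := by
    refine Def.ex (R := fun y v => E hl y (val hl gB) ∧ App (E hl) (val hl le) y (v 0)) ?_
    exact Def.and (Def.mem (DefFun.var 0) (DefFun.const _))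
      (App.df (DefFun.const _) (DefFun.var 0) (DefFun.var 1))
  obtain ⟨g, hg⟩ := (zfc hl).sep1 hdef (val hl Pn)
  obtain ⟨w0⟩ : Nonempty Wo.{u} := by
    obtain ⟨w, -⟩ := Wo_uncountable ∅ Set.countable_empty
    exact ⟨w⟩
  refine ⟨g, ⟨?_, ?_, ?_, ?_⟩, ?_⟩
  · intro x hx
    exact ((hg x).1 hx).1
  · obtain ⟨y, hy, -⟩ := h1 _ (E_chkT w0)
    exact ⟨y, (hg y).2 ⟨h0 y hy, y, hy, hrefl y (h0 y hy)⟩⟩
  · intro x y hx hxy
    obtain ⟨-, z, hz, hzx⟩ := (hg x).1 hx
    refine (hg y).2 ⟨?_, z, hz, htrans _ _ _ hzx hxy⟩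
    obtain ⟨p, hp, hpxy⟩ := hxy
    obtain ⟨x', y', -, hy', hp'⟩ := hR p hp
    obtain ⟨-, rfl⟩ := IsPair.inj (zfc hl) hpxy hp'
    exact hy'
  · intro x x' hx hx'
    obtain ⟨-, y, hy, hyx⟩ := (hg x).1 hx
    obtain ⟨-, y', hy', hyx'⟩ := (hg x').1 hx'
    obtain ⟨z, hz, hzy, hzy'⟩ := h2 y hy y' hy'
    exact ⟨z, (hg z).2 ⟨h0 z hz, z, hz, hrefl z (h0 z hz)⟩, htrans _ _ _ hzy hyx,
      htrans _ _ _ hzy' hyx'⟩
  · intro A hA
    obtain ⟨w, hw⟩ := hcov A hA
    have hw' : E hl w (val hl (chkT Wo.{u})) := by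
      obtain ⟨p, hp, hpw⟩ := hw
      obtain ⟨x', y', hx', hp'⟩ := hf.1 p hp
      obtain ⟨rfl, -⟩ := IsPair.inj (zfc hl) hpw hp'
      exact hx'
    obtain ⟨y, hy, hyA⟩ := h1 w hw'
    obtain ⟨z, hz, hyz⟩ := hyA A hw hA
    exact ⟨z, (hg z).2 ⟨(hden A hA).1 z hz, y, hy, hyz⟩, hz⟩

/-- The forcing axiom: the bad event or the existence of the filter has a positive truth value. -/
theorem fa_main {H Q Pn le F f0 : BSet (DD L)} {a : DD L} (ha : a ≠ ⊥) (h : Hyp H Q Pn le a)
    (hD : HypD Pn le F f0 a) (hS : a ⊓ SS H Q (WW H Q) = ⊥)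
    (hfa : ∀ (Y : Type u) (ρ : Y → Y → P → Prop) (D : W1.{u} → Y → P → Prop) (p : P), Nonempty Y →
      POrd L ρ → TPN L ρ p → DnsW L ρ D p → ∃ q F, L q p ∧ Filt L ρ D q F) :
    ∃ q : P, io q ≤ a ∧ ∀ (lam : DD L → Prop) (hl : IsUF lam), lam (io q) →
      ∃ g, IsFilt (E hl) (val hl Pn) (val hl le) g ∧
        ∀ A, E hl A (val hl F) → ∃ x, E hl x g ∧ E hl x A := by
  obtain ⟨p0, hp0⟩ := exists_io_le ha
  have hne : Nonempty H.ty := by
    obtain ⟨lam, hl, hla⟩ := exists_isUF ha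
    have h1 := E_val.1 (h lam hl hla).2.2.1
    by_contra hc
    rw [not_nonempty_iff] at hc
    rw [bmem, iSup_of_empty] at h1
    exact hl.bot h1
  have hW : #W1.{u} = #Wo.{u} := by
    rw [mk_Wo]
    exact Cardinal.mk_out _
  obtain ⟨e⟩ := Cardinal.eq.1 hW
  obtain ⟨hd1, hd2⟩ := dns_Dn h hD hp0
  obtain ⟨q, G, hq, hG⟩ := hfa H.ty (rho H Pn le a) (fun w => Dn H Pn le F f0 a (e w)) p0 hne
    (pord_rho h) (tpn_rho h hS hp0)
    ⟨fun w y p y' q => hd1 (e w) y p y' q, fun w p hp y => hd2 (e w) p hp y⟩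
  have hG' : Filt L (rho H Pn le a) (Dn H Pn le F f0 a) q G := by
    refine ⟨hG.mono, hG.dir, ?_⟩
    intro w r hr
    have h1 := hG.meet (e.symm w) r hr
    rwa [Equiv.apply_symm_apply] at h1
  have hqa : io q ≤ a := (io_mono hq).trans hp0
  exact ⟨q, hqa, fun lam hl hlam => filter_of_filt h hD hqa hG' hlam⟩

end Pool.Agent.W_MP_315f31_lc
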