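import Pool.Agent.W_315f31_h40.FA3

/-!
# MP_315f31_lc : `DCFA` and the failure of `CH` in the countable submodel
-/

universe u

open Cardinal Set HESR IM.BSet DCM
open IM (BSet)

namespace BVM

variable {D : Type u} [CompleteBooleanAlgebra D] {lam : D → Prop} {hl : IsUF lam}

/-- First-order relations transfer between the submodel and the quotient. -/
theorem fo_transfer {N : Set (BSet D)}
    (hN : ∀ (k : ℕ) (φ : HESR.Fml (k + 1)) (w : Fin k → BSet D), (∀ i, w i ∈ N) →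
        ∃ x ∈ N, (⨆ y, tvH φ (Fin.cons y w)) = tvH φ (Fin.cons x w)) {m : ℕ}
    {R : ∀ (T : Type (u + 1)) (_ : T → T → Prop), (Fin m → T) → Prop} (h : FO R)
    (v : Fin m → Mdl hl N) :
    R (Mdl hl N) (EM hl N) v ↔ R (X hl) (E hl) fun i => (v i).1 := by
  obtain ⟨φ, hφ⟩ := h
  rw [hφ, hφ]
  exact elem_mdl hl N hN φ v

theorem IsPo.fo {k : ℕ} (a b c : Fin k) : FO.{u} (fun _ E v => IsPo E (v a) (v b) (v c)) := by
  unfold IsPo; (repeat' (first | exact IsPair.fo _ _ _ | exact App.fo _ _ _ | exact Sub.fo _ _ | exact FO.mem _ _ | exact FO.eq _ _ | apply FO.not | apply FO.and | apply FO.or | apply FO.iff | apply FO.imp | apply FO.ex | apply FO.all))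

theorem IsFilt.fo {k : ℕ} (a b c : Fin k) : FO.{u} (fun _ E v => IsFilt E (v a) (v b) (v c)) := by
  unfold IsFilt; (repeat' (first | exact IsPair.fo _ _ _ | exact App.fo _ _ _ | exact Sub.fo _ _ | exact FO.mem _ _ | exact FO.eq _ _ | apply FO.not | apply FO.and | apply FO.or | apply FO.iff | apply FO.imp | apply FO.ex | apply FO.all))

/-- The first-order part of the situation: `v = (H, Q, Pn, le)`. -/
def HypF {M : Type*} (E : M → M → Prop) (H Q Pn le : M) : Prop :=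
  IsPo E Q Pn le ∧ IsTr E H ∧ E Q H ∧ ∀ A, Sub E A Pn → E A H

theorem HypF.fo : FO.{u} (fun _ E (v : Fin 4 → _) => HypF E (v 0) (v 1) (v 2) (v 3)) := by
  unfold HypF; (repeat' (first | exact IsPo.fo _ _ _ | exact IsTr.fo _ | exact Sub.fo _ _ | exact FO.mem _ _ | apply FO.and | apply FO.imp | apply FO.all))

/-- The first-order part about the dense sets: `v = (Pn, le, F, f0, w)`. -/
def HypDF {M : Type*} (E : M → M → Prop) (Pn le F f0 w : M) : Prop :=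
  IsFun E f0 w ∧ (∀ A, E A F → ∃ x, App E f0 x A) ∧ ∀ A, E A F → IsDense E Pn le A

theorem HypDF.fo : FO.{u} (fun _ E (v : Fin 5 → _) => HypDF E (v 0) (v 1) (v 2) (v 3) (v 4)) := by
  unfold HypDF; (repeat' (first | exact IsDense.fo _ _ _ | exact IsFun.fo _ _ | exact App.fo _ _ _ | exact FO.mem _ _ | apply FO.and | apply FO.imp | apply FO.ex | apply FO.all))

/-- There is a filter meeting all elements of `F`: `v = (Pn, le, F)`. -/
def HasF {M : Type*} (E : M → M → Prop) (Pn le F : M) : Prop :=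
  ∃ g, IsFilt E Pn le g ∧ ∀ A, E A F → ∃ x, E x g ∧ E x A

theorem HasF.fo : FO.{u} (fun _ E (v : Fin 3 → _) => HasF E (v 0) (v 1) (v 2)) := by
  unfold HasF; (repeat' (first | exact IsFilt.fo _ _ _ | exact FO.mem _ _ | apply FO.and | apply FO.imp | apply FO.ex | apply FO.all))

end BVM

namespace Pool.Agent.W_MP_315f31_lc

open BVM

theorem isOm1_Wo {K : Type u} [LinearOrder K] {D : Type u} [CompleteBooleanAlgebra D]
    (h : CoreD K D) {lam : D → Prop} (hl : IsUF lam) :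
    IsOm1 (E hl) (val hl (chkT Wo.{u} : BSet D)) := by
  refine ⟨isOrd_chkT, ?_, fun x hx => ⟨_, isOmega_omB, cov_Wo hl x hx⟩⟩
  rintro ⟨w, hw, hc⟩
  rw [eq_omB hw] at hc
  exact not_cov_Wo h hl hc

theorem isOm2_K {K : Type u} [LinearOrder K] [WellFoundedLT K] (hK : Inacc K) {D : Type u}
    [CompleteBooleanAlgebra D] (h : CoreD K D) {lam : D → Prop} (hl : IsUF lam) :
    IsOm2 (E hl) (val hl (chkT K : BSet D)) :=
  ⟨isOrd_chkT, _, isOm1_Wo h hl, not_cov_K h hK hl, fun x hx => cov_K h hl x hx⟩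

theorem notCH_X {K : Type u} [LinearOrder K] [WellFoundedLT K] (hK : Inacc K) {D : Type u}
    [CompleteBooleanAlgebra D] (h : CoreD K D) {lam : D → Prop} (hl : IsUF lam) :
    NotCH (E hl) := by
  obtain ⟨c, hc⟩ := (zfc hl).exPow (val hl omB)
  exact ⟨_, _, c, isOmega_omB, isOm1_Wo h hl, hc, not_cov_reals h hK hl c hc⟩

/-- `DCFA` in the countable submodel. -/
theorem dcfa_mdl {K P : Type u} [LinearOrder K] {L : P → P → Prop} [IsPre L] (h : CoreD K (DD L))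
    (hfa : ∀ (Y : Type u) (ρ : Y → Y → P → Prop) (D : W1.{u} → Y → P → Prop) (p : P), Nonempty Y →
      POrd L ρ → TPN L ρ p → DnsW L ρ D p → ∃ q F, L q p ∧ Filt L ρ D q F)
    {lam : DD L → Prop} {hl : IsUF lam} {N : Set (BSet (DD L))}
    (hW : ∀ x ∈ N, ∀ y ∈ N, WW x y ∈ N)
    (hN : ∀ (k : ℕ) (φ : HESR.Fml (k + 1)) (w : Fin k → BSet (DD L)), (∀ i, w i ∈ N) →
        ∃ x ∈ N, (⨆ y, tvH φ (Fin.cons y w)) = tvH φ (Fin.cons x w)) :
    DCFA (EM hl N) := by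
  intro Q Pn le hPo hDee _ w1 F hw1 hcov hF
  have hZ := zfc_mdl hl N hN
  obtain ⟨H, hTr, hQH, hsub, htph⟩ := IsDee.tph hZ hPo hDee
  obtain ⟨f0, hf0, hf0'⟩ := hcov
  by_contra hno
  -- names
  obtain ⟨H, H', hH', rfl⟩ := H
  obtain ⟨Q, Q', hQ', rfl⟩ := Q
  obtain ⟨Pn, Pn', hPn', rfl⟩ := Pn
  obtain ⟨le, le', hle', rfl⟩ := le
  obtain ⟨F, F', hF', rfl⟩ := F
  obtain ⟨f0, f0', hf0'', rfl⟩ := f0
  have hw : w1.1 = val hl (chkT Wo.{u}) := by
    have h1 := (fo_transfer hN (IsOm1.fo (0 : Fin 1)) ![w1]).1 hw1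
    exact IsOm1.uniq (zfc hl) h1 (isOm1_Wo h hl)
  have h1 : HypF (E hl) (val hl H') (val hl Q') (val hl Pn') (val hl le') :=
    (fo_transfer hN HypF.fo ![⟨_, H', hH', rfl⟩, ⟨_, Q', hQ', rfl⟩, ⟨_, Pn', hPn', rfl⟩,
      ⟨_, le', hle', rfl⟩]).1 ⟨hPo, hTr, hQH, hsub⟩
  have h2 : HypDF (E hl) (val hl Pn') (val hl le') (val hl F') (val hl f0') (val hl (chkT Wo.{u})) := by
    have h3 := (fo_transfer hN HypDF.fo ![⟨_, Pn', hPn', rfl⟩, ⟨_, le', hle', rfl⟩, ⟨_, F', hF', rfl⟩,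
      ⟨_, f0', hf0'', rfl⟩, w1]).1 ⟨hf0, hf0', hF⟩
    rw [← hw]
    exact h3
  have h3 : ¬ HasF (E hl) (val hl Pn') (val hl le') (val hl F') := by
    intro h4
    exact hno ((fo_transfer hN HasF.fo ![⟨_, Pn', hPn', rfl⟩, ⟨_, le', hle', rfl⟩,
      ⟨_, F', hF', rfl⟩]).2 h4)
  -- the bad event fails
  have h4 : ¬ lam (SS H' Q' (WW H' Q')) := by
    intro h5
    obtain ⟨h6, h7⟩ := hl.inf_iff.1 h5
    have hn := hW H' hH' Q' hQ'
    set n := WW H' Q' with hndef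
    let n1 : Mdl hl N := ⟨_, n, hn, rfl⟩
    let H1 : Mdl hl N := ⟨_, H', hH', rfl⟩
    let Q1 : Mdl hl N := ⟨_, Q', hQ', rfl⟩
    have h8 : Bd (EM hl N) H1 Q1 n1 :=
      (fo_transfer hN (Bd.fo (0 : Fin 3) 1 2) ![H1, Q1, n1]).2 (bdv_iff.2 h6)
    have h9 : Elem (EM hl N) n1 H1 := by
      refine ⟨h8.2.1, fun k φ => ?_⟩
      exact (fo_transfer hN (Elem1.fo φ (0 : Fin 2) 1) ![n1, H1]).2
        (elv_iff.2 (hl.mono (iInf₂_le k φ) h7))
    apply h8.2.2.2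
    intro P2 le2 hpair p hp hpn
    obtain ⟨rfl, rfl⟩ := IsPair.inj hZ hPo.1 hpair
    exact htph n1 h8.1 h9 h8.2.2.1 p hp hpn
  -- truth values
  have t1 : TD0 (D := DD L) fun lam hl =>
      HypF (E hl) (val hl H') (val hl Q') (val hl Pn') (val hl le') :=
    TD.fo4 (R := fun _ E a b c d => HypF E a b c d) HypF.fo (Tm.const _) (Tm.const _) (Tm.const _)
      (Tm.const _)
  have t2 : TD0 (D := DD L) fun lam hl =>
      HypDF (E hl) (val hl Pn') (val hl le') (val hl F') (val hl f0') (val hl (chkT Wo.{u})) :=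
    TD.fo5 (R := fun _ E a b c d e => HypDF E a b c d e) HypDF.fo (Tm.const _) (Tm.const _)
      (Tm.const _) (Tm.const _) (Tm.const _)
  have t3 : TD0 (D := DD L) fun lam hl => HasF (E hl) (val hl Pn') (val hl le') (val hl F') :=
    TD.fo3 (R := fun _ E a b c => HasF E a b c) HasF.fo (Tm.const _) (Tm.const _) (Tm.const _)
  let a : DD L := TD.b0 t1 ⊓ (TD.b0 t2 ⊓ ((TD.b0 t3)ᶜ ⊓ (SS H' Q' (WW H' Q'))ᶜ))
  have hla : lam a := hl.inf ((TD.b0_iff t1).1 h1) (hl.inf ((TD.b0_iff t2).1 h2)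
    (hl.inf (hl.compl_iff.2 fun h5 => h3 ((TD.b0_iff t3).2 h5)) (hl.compl_iff.2 h4)))
  have ha0 : a ≠ ⊥ := fun h0 => hl.bot (h0 ▸ hla)
  have hH : Hyp H' Q' Pn' le' a := fun lam hl h5 => (TD.b0_iff t1).2 (hl.mono inf_le_left h5)
  have hD : HypD Pn' le' F' f0' a := fun lam hl h5 =>
    (TD.b0_iff t2).2 (hl.mono (inf_le_right.trans inf_le_left) h5)
  have hS : a ⊓ SS H' Q' (WW H' Q') = ⊥ := by
    rw [← le_bot_iff]
    calc a ⊓ SS H' Q' (WW H' Q') ≤ (SS H' Q' (WW H' Q'))ᶜ ⊓ SS H' Q' (WW H' Q') :=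
          inf_le_inf_right _ (inf_le_right.trans (inf_le_right.trans inf_le_right))
      _ = ⊥ := compl_inf_eq_bot
      _ ≤ ⊥ := le_rfl
  obtain ⟨q, hq, hq'⟩ := fa_main ha0 hH hD hS hfa
  obtain ⟨lam2, hl2, hlam2⟩ := exists_isUF (io_ne_bot (L := L) q)
  have h5 : lam2 (TD.b0 t3) := (TD.b0_iff t3).1 (hq' lam2 hl2 hlam2)
  have h6 : lam2 (TD.b0 t3)ᶜ := hl2.mono (hq.trans
    (inf_le_right.trans (inf_le_right.trans inf_le_left))) hlam2
  exact hl2.compl_iff.1 h6 h5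

end Pool.Agent.W_MP_315f31_lc
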