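import Pool.Agent.W_315f31_h40.Final0
import Pool.Agent.W_MP_315f31_lc.C.TreeX

/-!
# MP_315f31_lc : the countable well-founded model, from the properties `Core` of the iteration
-/

universe u

open Cardinal Set HESR IM.BSet DCM
open IM (BSet)

namespace Pool.Agent.W_MP_315f31_lc

open BVM

/-- The properties of the iteration give a countable well-founded model. -/
theorem model_of_core {K : Type u} [LinearOrder K] {P : Type u} {L : P → P → Prop} (h : Core K P L) :
    ∃ (M : Type (u + 1)) (E : M → M → Prop), Countable M ∧ WellFounded E ∧ HESR.IsZFC E ∧ DCFA E ∧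
      NotCH E ∧ HasAT E := by
  have : IsPre L := ⟨h.refl, h.trans⟩
  have : WellFoundedLT K := h.wf
  have hD : CoreD K (DD L) := h.coreD
  obtain ⟨p0⟩ := h.ne
  obtain ⟨N, hNc, _, hW, hN⟩ := exists_names_closed (D := DD L) WW omB
  obtain ⟨lam, hl, _, hwf⟩ := exists_wf (D := DD L) (io_ne_bot (L := L) p0) N hNc
  have hM : Countable (Mdl hl N) := by
    have h1 : Countable N := hNc.to_subtype
    have h2 : Function.Surjective fun z : N => (⟨val hl z.1, z.1, z.2, rfl⟩ : Mdl hl N) := by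
      rintro ⟨x, z, hz, rfl⟩
      exact ⟨⟨z, hz⟩, rfl⟩
    exact h2.countable
  refine ⟨Mdl hl N, EM hl N, hM, hwf, zfc_mdl hl N hN, ?_, ?_, ?_⟩
  · exact dcfa_mdl hD (fun Y ρ D p hY => h.fa Y hY ρ D p) hW hN
  · exact (fo_transfer hN (NotCH.fo (k := 0)) Fin.elim0).2 (Pool.Agent.W_MP_315f31_lc.notCH_X h.inacc hD hl)
  · exact (fo_transfer hN (HasAT.fo (k := 0)) Fin.elim0).2
      (hasAT_X hD hl (isOm1_Wo hD hl) (isOm2_K h.inacc hD hl))

end Pool.Agent.W_MP_315f31_lc
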